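import Mathlib

/-!
Project HR2 (MP_16b0ee): a finite dimensional inequality for the difference of a diagonal form and
a form given by a kernel that is a polynomial plus a small remainder.
-/

set_option autoImplicit false

open Filter Topology Finset
open scoped ComplexConjugate

namespace Pool.Agent.Helper37.PFS

theorem two_mul_le {x y c : ℝ} (hc : 0 < c) : 2 * (x * y) ≤ c * x ^ 2 + y ^ 2 / c := by
  have h : 0 ≤ (c * x - y) ^ 2 / c := div_nonneg (sq_nonneg _) hc.le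
  have e : (c * x - y) ^ 2 / c = c * x ^ 2 + y ^ 2 / c - 2 * (x * y) := by
    field_simp
    ring
  linarith

theorem nsq_add (z w : ℂ) : ‖z + w‖ ^ 2 = ‖z‖ ^ 2 + 2 * (conj z * w).re + ‖w‖ ^ 2 := by
  rw [← Complex.normSq_eq_norm_sq, ← Complex.normSq_eq_norm_sq, ← Complex.normSq_eq_norm_sq,
    Complex.normSq_apply, Complex.normSq_apply, Complex.normSq_apply]
  simp only [Complex.add_re, Complex.add_im, Complex.mul_re, Complex.conj_re, Complex.conj_im]
  ring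

theorem re_mul_le (z w : ℂ) : (z * w).re ≤ ‖z‖ * ‖w‖ := by
  rw [← norm_mul]
  exact Complex.re_le_norm _

theorem sq3 (F R0 R1 : ℂ) {κ : ℝ} (hκ : 0 < κ) :
    ‖F + (R0 + R1)‖ ^ 2 ≤ ‖F‖ ^ 2 + 2 * (conj F * R0).re + 2 * (conj F * R1).re
      + ((1 + 1 / κ) * ‖R0‖ ^ 2 + (1 + κ) * ‖R1‖ ^ 2) := by
  rw [nsq_add, nsq_add, mul_add, Complex.add_re]
  have h1 : (conj R0 * R1).re ≤ ‖R1‖ * ‖R0‖ := by
    have := re_mul_le (conj R0) R1
    rw [RCLike.norm_conj] at this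
    linarith
  have h2 := two_mul_le (x := ‖R1‖) (y := ‖R0‖) hκ
  have e : (1 + 1 / κ) * ‖R0‖ ^ 2 = ‖R0‖ ^ 2 + ‖R0‖ ^ 2 / κ := by
    field_simp
  linarith

/-- the norm square of a sum -/
theorem nsq_sum (L : Finset ℕ) (x : ℕ → ℂ) :
    ‖∑ l ∈ L, x l‖ ^ 2 = ∑ l ∈ L, ∑ k ∈ L, (x l * conj (x k)).re := by
  have h : ((‖∑ l ∈ L, x l‖ ^ 2 : ℝ) : ℂ) = ∑ l ∈ L, ∑ k ∈ L, x l * conj (x k) := by
    rw [← Complex.normSq_eq_norm_sq, ← Complex.mul_conj, map_sum, Finset.sum_mul_sum]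
  have h2 := congrArg Complex.re h
  rw [Complex.ofReal_re] at h2
  rw [h2, Complex.re_sum]
  apply Finset.sum_congr rfl
  intro l _
  rw [Complex.re_sum]

theorem cs1 (I : Finset ℕ) (a : ℕ → ℝ) (ha : ∀ i ∈ I, 0 < a i) (u r : ℕ → ℂ) :
    ‖∑ i ∈ I, u i * r i‖ ^ 2 ≤ (∑ i ∈ I, ‖u i‖ ^ 2 / a i) * ∑ i ∈ I, a i * ‖r i‖ ^ 2 := by
  have h1 : ‖∑ i ∈ I, u i * r i‖ ≤ ∑ i ∈ I, ‖u i‖ * ‖r i‖ := by
    refine (norm_sum_le _ _).trans (le_of_eq ?_)
    apply Finset.sum_congr rfl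
    intro i _
    rw [norm_mul]
  have h2 := Finset.sum_sq_le_sum_mul_sum_of_sq_le_mul I
    (r := fun i => ‖u i‖ * ‖r i‖) (f := fun i => ‖u i‖ ^ 2 / a i)
    (g := fun i => a i * ‖r i‖ ^ 2)
    (fun i hi => by have := ha i hi; positivity) (fun i hi => by have := ha i hi; positivity)
    (fun i hi => by
      have := (ha i hi).ne'
      apply le_of_eq
      field_simp)
  exact (pow_le_pow_left₀ (norm_nonneg _) h1 2).trans h2

theorem cs2 (I : Finset ℕ) (a : ℕ → ℝ) (ha : ∀ i ∈ I, 0 < a i) (w : ℕ → ℝ) (hw : ∀ j, 0 ≤ w j)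
    (u : ℕ → ℂ) (r : ℕ → ℕ → ℂ) (J : ℕ) :
    ∑ j ∈ range J, w j * ‖∑ i ∈ I, u i * r i j‖ ^ 2
      ≤ (∑ i ∈ I, ‖u i‖ ^ 2 / a i) * ∑ j ∈ range J, ∑ i ∈ I, w j * a i * ‖r i j‖ ^ 2 := by
  rw [Finset.mul_sum]
  apply Finset.sum_le_sum
  intro j _
  have h := mul_le_mul_of_nonneg_left (cs1 I a ha u (fun i => r i j)) (hw j)
  refine h.trans (le_of_eq ?_)
  have e : ∑ i ∈ I, w j * a i * ‖r i j‖ ^ 2 = w j * ∑ i ∈ I, a i * ‖r i j‖ ^ 2 := by
    rw [Finset.mul_sum]
    apply Finset.sum_congr rfl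
    intro i _
    ring
  rw [e]
  ring

/-- the quadratic part -/
theorem quad (L : Finset ℕ) (w Y : ℕ → ℝ) (f : ℕ → ℂ) (J : ℕ) :
    ∑ j ∈ range J, w j * ‖∑ l ∈ L, f l * (Y j : ℂ) ^ l‖ ^ 2
      = ∑ l ∈ L, ∑ k ∈ L, (f l * conj (f k)).re * ∑ j ∈ range J, w j * Y j ^ (l + k) := by
  have h : ∀ j, w j * ‖∑ l ∈ L, f l * (Y j : ℂ) ^ l‖ ^ 2
      = ∑ l ∈ L, ∑ k ∈ L, (f l * conj (f k)).re * (w j * Y j ^ (l + k)) := by
    intro j
    rw [nsq_sum, Finset.mul_sum]
    apply Finset.sum_congr rfl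
    intro l _
    rw [Finset.mul_sum]
    apply Finset.sum_congr rfl
    intro k _
    have e : f l * (Y j : ℂ) ^ l * conj (f k * (Y j : ℂ) ^ k)
        = (f l * conj (f k)) * ((Y j ^ (l + k) : ℝ) : ℂ) := by
      rw [map_mul, map_pow, Complex.conj_ofReal, pow_add]
      push_cast
      ring
    rw [e, Complex.re_mul_ofReal]
    ring
  rw [Finset.sum_congr rfl (fun j _ => h j), Finset.sum_comm]
  apply Finset.sum_congr rfl
  intro l _
  rw [Finset.sum_comm]
  apply Finset.sum_congr rfl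
  intro k _
  rw [Finset.mul_sum]

/-- the cross part -/
theorem cross (L I : Finset ℕ) (w Y : ℕ → ℝ) (f u : ℕ → ℂ) (r : ℕ → ℕ → ℂ) (J : ℕ) :
    ∑ j ∈ range J, w j * (2 * (conj (∑ l ∈ L, f l * (Y j : ℂ) ^ l)
        * ∑ i ∈ I, u i * r i j).re)
      = 2 * (∑ l ∈ L, conj (f l) * ∑ i ∈ I, u i
        * ∑ j ∈ range J, (w j : ℂ) * (Y j : ℂ) ^ l * r i j).re := by
  have h1 : ∑ l ∈ L, conj (f l) * ∑ i ∈ I, u i * ∑ j ∈ range J, (w j : ℂ) * (Y j : ℂ) ^ l * r i j
      = ∑ j ∈ range J, (w j : ℂ) * (conj (∑ l ∈ L, f l * (Y j : ℂ) ^ l)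
        * ∑ i ∈ I, u i * r i j) := by
    have e : ∀ l ∈ L, conj (f l) * ∑ i ∈ I, u i
        * ∑ j ∈ range J, (w j : ℂ) * (Y j : ℂ) ^ l * r i j
        = ∑ j ∈ range J, (w j : ℂ) * (conj (f l * (Y j : ℂ) ^ l) * ∑ i ∈ I, u i * r i j) := by
      intro l _
      have e2 : ∑ i ∈ I, u i * ∑ j ∈ range J, (w j : ℂ) * (Y j : ℂ) ^ l * r i j
          = ∑ j ∈ range J, ∑ i ∈ I, u i * ((w j : ℂ) * (Y j : ℂ) ^ l * r i j) := by
        rw [Finset.sum_comm]
        apply Finset.sum_congr rfl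
        intro i _
        rw [Finset.mul_sum]
      rw [e2, Finset.mul_sum]
      apply Finset.sum_congr rfl
      intro j _
      rw [Finset.mul_sum, Finset.mul_sum, Finset.mul_sum]
      apply Finset.sum_congr rfl
      intro i _
      rw [map_mul, map_pow, Complex.conj_ofReal]
      ring
    rw [Finset.sum_congr rfl e, Finset.sum_comm]
    apply Finset.sum_congr rfl
    intro j _
    rw [← Finset.mul_sum, ← Finset.sum_mul, map_sum]
  rw [h1, Complex.re_sum, Finset.mul_sum]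
  apply Finset.sum_congr rfl
  intro j _
  rw [Complex.re_ofReal_mul]
  ring

theorem main_fin (m D : ℕ) (a : ℕ → ℝ) (ha : ∀ i ∈ range m, 0 < a i) (w : ℕ → ℝ)
    (hw : ∀ j, 0 ≤ w j) (Y : ℕ → ℝ) (r : ℕ → ℕ → ℂ) (A : ℕ → ℝ) (S : ℕ → ℕ → ℂ)
    (hA : ∀ l, Tendsto (fun J => ∑ j ∈ range J, w j * Y j ^ l) atTop (𝓝 (A l)))
    (hS : ∀ l, ∀ i ∈ range m,
      Tendsto (fun J => ∑ j ∈ range J, (w j : ℂ) * (Y j : ℂ) ^ l * r i j) atTop (𝓝 (S l i)))
    {HS κ τ : ℝ} (hHS : ∀ J, ∑ j ∈ range J, ∑ i ∈ range m, w j * a i * ‖r i j‖ ^ 2 ≤ HS)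
    (hκ : 0 < κ) (hτ : 0 < τ) (h1 : (1 + κ) * HS + τ ≤ 1) (U q f : ℕ → ℂ) (J : ℕ) :
    2 * (∑ i ∈ range m, conj (q i) * U i).re
        - (1 + (1 + 1 / κ) * HS) * (∑ i ∈ range m, a i * ‖q i‖ ^ 2)
        - (∑ l ∈ range (D + 1), ∑ k ∈ range (D + 1), (f l * conj (f k)).re * A (l + k))
        - 2 * (∑ l ∈ range (D + 1), conj (f l) * ∑ i ∈ range m, ((a i : ℂ) * q i) * S l i).re
        - 1 / τ * (∑ i ∈ range m, a i * ‖∑ l ∈ range (D + 1), conj (f l) * S l i‖ ^ 2)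
      ≤ (∑ i ∈ range m, ‖U i‖ ^ 2 / a i)
        - ∑ j ∈ range J, w j * ‖(∑ l ∈ range (D + 1), f l * (Y j : ℂ) ^ l)
          + ∑ i ∈ range m, U i * r i j‖ ^ 2 := by
  set u0 : ℕ → ℂ := fun i => (a i : ℂ) * q i with hu0
  set v : ℕ → ℂ := fun i => U i - u0 i with hv
  set P0 := ∑ i ∈ range m, ‖u0 i‖ ^ 2 / a i with hP0
  set Pv := ∑ i ∈ range m, ‖v i‖ ^ 2 / a i with hPv
  have hP0n : 0 ≤ P0 := Finset.sum_nonneg (fun i hi => by have := ha i hi; positivity)
  have hPvn : 0 ≤ Pv := Finset.sum_nonneg (fun i hi => by have := ha i hi; positivity)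
  have hHS0 : 0 ≤ HS := by
    have := hHS 0
    simpa using this
  -- the value of P0
  have eP0 : P0 = ∑ i ∈ range m, a i * ‖q i‖ ^ 2 := by
    apply Finset.sum_congr rfl
    intro i hi
    have := ha i hi
    rw [hu0]
    simp only
    rw [norm_mul, Complex.norm_real, Real.norm_of_nonneg this.le]
    field_simp
  -- decomposition of P
  have eP : ∑ i ∈ range m, ‖U i‖ ^ 2 / a i
      = 2 * (∑ i ∈ range m, conj (q i) * U i).re - P0 + Pv := by
    have e : ∀ i ∈ range m, ‖U i‖ ^ 2 / a i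
        = 2 * (conj (q i) * U i).re - ‖u0 i‖ ^ 2 / a i + ‖v i‖ ^ 2 / a i := by
      intro i hi
      have hi' := ha i hi
      have e1 : ‖v i‖ ^ 2 = ‖U i‖ ^ 2 - 2 * a i * (conj (q i) * U i).re + ‖u0 i‖ ^ 2 := by
        have e2 : v i = -u0 i + U i := by simp only [hv]; ring
        rw [e2, nsq_add, norm_neg]
        have e3 : (conj (-u0 i) * U i).re = - (a i * (conj (q i) * U i).re) := by
          have : conj (-u0 i) * U i = ((-a i : ℝ) : ℂ) * (conj (q i) * U i) := by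
            simp only [hu0, map_neg, map_mul, Complex.conj_ofReal]
            push_cast
            ring
          rw [this, Complex.re_ofReal_mul]
          ring
        rw [e3]
        ring
      rw [e1]
      field_simp
      ring
    rw [Finset.sum_congr rfl e, Finset.sum_add_distrib, Finset.sum_sub_distrib,
      ← Finset.mul_sum, ← Complex.re_sum]
  -- the bound for a finite number of terms
  set G : ℕ → ℝ := fun J' =>
    (∑ l ∈ range (D + 1), ∑ k ∈ range (D + 1), (f l * conj (f k)).re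
        * ∑ j ∈ range J', w j * Y j ^ (l + k))
      + 2 * (∑ l ∈ range (D + 1), conj (f l) * ∑ i ∈ range m, u0 i
        * ∑ j ∈ range J', (w j : ℂ) * (Y j : ℂ) ^ l * r i j).re
      + 2 * (∑ l ∈ range (D + 1), conj (f l) * ∑ i ∈ range m, v i
        * ∑ j ∈ range J', (w j : ℂ) * (Y j : ℂ) ^ l * r i j).re
      + ((1 + 1 / κ) * (P0 * HS) + (1 + κ) * (Pv * HS)) with hG
  have hle : ∀ J' : ℕ, ∑ j ∈ range J', w j * ‖(∑ l ∈ range (D + 1), f l * (Y j : ℂ) ^ l)
      + ∑ i ∈ range m, U i * r i j‖ ^ 2 ≤ G J' := by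
    intro J'
    have hpt : ∀ j ∈ range J', w j * ‖(∑ l ∈ range (D + 1), f l * (Y j : ℂ) ^ l)
        + ∑ i ∈ range m, U i * r i j‖ ^ 2
        ≤ w j * ‖∑ l ∈ range (D + 1), f l * (Y j : ℂ) ^ l‖ ^ 2
          + w j * (2 * (conj (∑ l ∈ range (D + 1), f l * (Y j : ℂ) ^ l)
            * ∑ i ∈ range m, u0 i * r i j).re)
          + w j * (2 * (conj (∑ l ∈ range (D + 1), f l * (Y j : ℂ) ^ l)
            * ∑ i ∈ range m, v i * r i j).re)
          + ((1 + 1 / κ) * (w j * ‖∑ i ∈ range m, u0 i * r i j‖ ^ 2)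
            + (1 + κ) * (w j * ‖∑ i ∈ range m, v i * r i j‖ ^ 2)) := by
      intro j _
      have e : ∑ i ∈ range m, U i * r i j
          = ∑ i ∈ range m, u0 i * r i j + ∑ i ∈ range m, v i * r i j := by
        rw [← Finset.sum_add_distrib]
        apply Finset.sum_congr rfl
        intro i _
        simp only [hv]
        ring
      rw [e]
      have h := mul_le_mul_of_nonneg_left (sq3 (∑ l ∈ range (D + 1), f l * (Y j : ℂ) ^ l)
        (∑ i ∈ range m, u0 i * r i j) (∑ i ∈ range m, v i * r i j) hκ) (hw j)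
      linarith
    refine (Finset.sum_le_sum hpt).trans ?_
    rw [Finset.sum_add_distrib, Finset.sum_add_distrib, Finset.sum_add_distrib,
      Finset.sum_add_distrib, ← Finset.mul_sum, ← Finset.mul_sum, quad, cross, cross]
    have c0 := (cs2 (range m) a ha w hw u0 r J').trans
      (mul_le_mul_of_nonneg_left (hHS J') hP0n)
    have c1 := (cs2 (range m) a ha w hw v r J').trans
      (mul_le_mul_of_nonneg_left (hHS J') hPvn)
    have c0' := mul_le_mul_of_nonneg_left c0 (by positivity : 0 ≤ 1 + 1 / κ)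
    have c1' := mul_le_mul_of_nonneg_left c1 (by positivity : 0 ≤ 1 + κ)
    simp only [hG]
    linarith
  -- the limit
  set Gi : ℝ := (∑ l ∈ range (D + 1), ∑ k ∈ range (D + 1), (f l * conj (f k)).re * A (l + k))
      + 2 * (∑ l ∈ range (D + 1), conj (f l) * ∑ i ∈ range m, u0 i * S l i).re
      + 2 * (∑ l ∈ range (D + 1), conj (f l) * ∑ i ∈ range m, v i * S l i).re
      + ((1 + 1 / κ) * (P0 * HS) + (1 + κ) * (Pv * HS)) with hGi
  have hlim : Tendsto G atTop (𝓝 Gi) := by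
    have hc : ∀ x : ℕ → ℂ, Tendsto (fun J' : ℕ => 2 * (∑ l ∈ range (D + 1), conj (f l)
        * ∑ i ∈ range m, x i * ∑ j ∈ range J', (w j : ℂ) * (Y j : ℂ) ^ l * r i j).re) atTop
        (𝓝 (2 * (∑ l ∈ range (D + 1), conj (f l) * ∑ i ∈ range m, x i * S l i).re)) := by
      intro x
      apply Tendsto.const_mul
      apply (Complex.continuous_re.tendsto _).comp
      apply tendsto_finsetSum
      intro l _
      apply Tendsto.const_mul
      apply tendsto_finsetSum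
      intro i hi
      exact (hS l i hi).const_mul _
    refine Tendsto.add (Tendsto.add (Tendsto.add ?_ (hc u0)) (hc v)) tendsto_const_nhds
    apply tendsto_finsetSum
    intro l _
    apply tendsto_finsetSum
    intro k _
    exact (hA (l + k)).const_mul _
  have hfin : ∑ j ∈ range J, w j * ‖(∑ l ∈ range (D + 1), f l * (Y j : ℂ) ^ l)
      + ∑ i ∈ range m, U i * r i j‖ ^ 2 ≤ Gi := by
    apply ge_of_tendsto hlim
    filter_upwards [eventually_ge_atTop J] with J' hJ'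
    refine le_trans ?_ (hle J')
    apply Finset.sum_le_sum_of_subset_of_nonneg
    · exact Finset.range_subset_range.2 hJ'
    · intro j _ _
      exact mul_nonneg (hw j) (sq_nonneg _)
  -- the cross term with `v`
  have hcv : 2 * (∑ l ∈ range (D + 1), conj (f l) * ∑ i ∈ range m, v i * S l i).re
      ≤ τ * Pv + 1 / τ * ∑ i ∈ range m, a i * ‖∑ l ∈ range (D + 1), conj (f l) * S l i‖ ^ 2 := by
    have e : ∑ l ∈ range (D + 1), conj (f l) * ∑ i ∈ range m, v i * S l i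
        = ∑ i ∈ range m, v i * ∑ l ∈ range (D + 1), conj (f l) * S l i := by
      have e1 : ∀ l ∈ range (D + 1), conj (f l) * ∑ i ∈ range m, v i * S l i
          = ∑ i ∈ range m, v i * (conj (f l) * S l i) := by
        intro l _
        rw [Finset.mul_sum]
        apply Finset.sum_congr rfl
        intro i _
        ring
      rw [Finset.sum_congr rfl e1, Finset.sum_comm]
      apply Finset.sum_congr rfl
      intro i _
      rw [Finset.mul_sum]
    rw [e, Complex.re_sum, Finset.mul_sum, hPv, Finset.mul_sum, Finset.mul_sum,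
      ← Finset.sum_add_distrib]
    apply Finset.sum_le_sum
    intro i hi
    have hi' := ha i hi
    have h2 := re_mul_le (v i) (∑ l ∈ range (D + 1), conj (f l) * S l i)
    have h3 := two_mul_le (x := ‖v i‖) (y := ‖∑ l ∈ range (D + 1), conj (f l) * S l i‖)
      (div_pos hτ hi')
    have e2 : τ / a i * ‖v i‖ ^ 2 = τ * (‖v i‖ ^ 2 / a i) := by ring
    have e3 : ‖∑ l ∈ range (D + 1), conj (f l) * S l i‖ ^ 2 / (τ / a i)
        = 1 / τ * (a i * ‖∑ l ∈ range (D + 1), conj (f l) * S l i‖ ^ 2) := by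
      field_simp
    rw [e2, e3] at h3
    linarith
  have hfinal : 0 ≤ (1 - ((1 + κ) * HS + τ)) * Pv := mul_nonneg (by linarith) hPvn
  rw [eP]
  rw [← eP0]
  simp only [hGi] at hfin
  have e4 : (1 - ((1 + κ) * HS + τ)) * Pv = Pv - (1 + κ) * (Pv * HS) - τ * Pv := by ring
  rw [e4] at hfinal
  have e5 : (1 + (1 + 1 / κ) * HS) * P0 = P0 + (1 + 1 / κ) * (P0 * HS) := by ring
  rw [e5]
  linarith

end Pool.Agent.Helper37.PFS
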