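import Mathlib
import Pool.Agent.Helper24.HR2.Defs
import Pool.Agent.Helper37.PFS.Fin

/-!
Project HR2 (MP_16b0ee): integrability of the products of cross functions, the norm of the cross
functional as a form.
-/

set_option autoImplicit false

open Filter Topology Finset MeasureTheory Set
open scoped ComplexConjugate

namespace Pool.Agent.Helper37.PFS

open Pool.Agent.Helper24.HR2
open Pool.Agent.Helper22.Half

theorem alp_int {s : ℂ} (hs : ‖s‖ < 1) {b : ℝ} (hσ : 0 < b + 1 - 2 * s.re) :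
    IntegrableOn (alp s b) (Ioo 0 1) := by
  have hr : -1 < s.re := by
    have := Complex.abs_re_le_norm s
    have := neg_abs_le s.re
    linarith
  have h := Complex.betaIntegral_convergent (u := ((b + 1 - 2 * s.re : ℝ) : ℂ))
    (v := ((2 * s.re + 2 : ℝ) : ℂ)) (by rw [Complex.ofReal_re]; exact hσ)
    (by rw [Complex.ofReal_re]; linarith)
  rw [intervalIntegrable_iff_integrableOn_Ioo_of_le zero_le_one] at h
  have h2 := h.norm
  refine h2.congr ?_
  filter_upwards [ae_restrict_mem measurableSet_Ioo] with x hx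
  have hx0 : 0 < x := hx.1
  have hx1 : 0 < 1 - x := by linarith [hx.2]
  have e1 : (1 - (x : ℂ)) = ((1 - x : ℝ) : ℂ) := by push_cast; ring
  rw [norm_mul, e1, Complex.norm_cpow_eq_rpow_re_of_pos hx0,
    Complex.norm_cpow_eq_rpow_re_of_pos hx1, Complex.sub_re, Complex.sub_re, Complex.one_re,
    Complex.ofReal_re, Complex.ofReal_re]
  unfold alp
  have e2 : b + 1 - 2 * s.re - 1 = b - 2 * s.re := by ring
  have e3 : 2 * s.re + 2 - 1 = 2 * s.re + 1 := by ring
  rw [e2, e3]
  ring

theorem kp_le (D : ℕ) (p : ℕ → ℕ → ℝ) {X Y : ℝ} (hX0 : 0 ≤ X) (hX1 : X ≤ 1) (hY0 : 0 ≤ Y)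
    (hY1 : Y ≤ 1) :
    |kp D p X Y| ≤ (∑ n ∈ Finset.range D, ∑ l ∈ Finset.range D, |p n l|) * Y := by
  unfold kp
  rw [Finset.sum_mul]
  refine (Finset.abs_sum_le_sum_abs _ _).trans (Finset.sum_le_sum (fun n _ => ?_))
  rw [Finset.sum_mul]
  refine (Finset.abs_sum_le_sum_abs _ _).trans (Finset.sum_le_sum (fun l _ => ?_))
  rw [abs_mul, abs_mul, abs_of_nonneg (pow_nonneg hX0 n), abs_of_nonneg (pow_nonneg hY0 (l + 1)),
    pow_succ]
  have h1 : X ^ n ≤ 1 := pow_le_one₀ hX0 hX1
  have h2 : Y ^ l ≤ 1 := pow_le_one₀ hY0 hY1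
  have h3 : X ^ n * Y ^ l ≤ 1 := mul_le_one₀ h1 (pow_nonneg hY0 l) h2
  have h4 : 0 ≤ |p n l| * Y := mul_nonneg (abs_nonneg _) hY0
  calc |p n l| * X ^ n * (Y ^ l * Y) = (|p n l| * Y) * (X ^ n * Y ^ l) := by ring
    _ ≤ (|p n l| * Y) * 1 := mul_le_mul_of_nonneg_left h3 h4
    _ = |p n l| * Y := mul_one _

theorem rl_bdd {b : ℝ} (hb : 0 < b) (D : ℕ) (p : ℕ → ℕ → ℝ) :
    ∃ M : ℝ, 0 ≤ M ∧ ∀ l, ∀ x ∈ Ioo (0 : ℝ) 1, |rl b D p l x| ≤ M := by
  set C0 := ∑ n ∈ Finset.range D, ∑ l ∈ Finset.range D, |p n l| with hC0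
  have hC0n : 0 ≤ C0 := Finset.sum_nonneg (fun _ _ => Finset.sum_nonneg (fun _ _ => abs_nonneg _))
  have hint : IntegrableOn (fun y : ℝ => (1 + C0) * (y + 1) ^ (-b - 2)) (Ioi 0) :=
    (integrableOn_add_rpow_Ioi_of_lt (a := -b - 2) (c := 0) (m := 1) (by linarith)
      (by norm_num)).const_mul _
  refine ⟨∫ y in Ioi (0 : ℝ), (1 + C0) * (y + 1) ^ (-b - 2), ?_, ?_⟩
  · apply setIntegral_nonneg measurableSet_Ioi
    intro y hy
    have : (0 : ℝ) < y := hy
    positivity
  · intro l x hx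
    unfold rl
    rw [← Real.norm_eq_abs]
    apply norm_integral_le_of_norm_le hint
    filter_upwards [ae_restrict_mem measurableSet_Ioi] with y hy
    have hy0 : 0 < y := hy
    have hx0 : 0 < x := hx.1
    have hx1 : x < 1 := hx.2
    set Y := 1 / (1 + y) with hY
    have hY0 : 0 < Y := by positivity
    have hY1 : Y ≤ 1 := by
      rw [hY, div_le_one (by positivity)]
      linarith
    have hk := kp_le D p (X := 1 - x) (Y := Y) (by linarith) (by linarith) hY0.le hY1
    rw [← hC0] at hk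
    have hR : |RR D p x y| ≤ 1 / (x + y) + C0 * Y := by
      unfold RR
      refine (abs_sub _ _).trans ?_
      rw [abs_of_pos (by positivity : 0 < 1 / (x + y))]
      linarith
    have hP : 0 < (1 + y) ^ (-b - 2) := by positivity
    have hYl : Y ^ l ≤ 1 := pow_le_one₀ hY0.le hY1
    have h1 : y * (1 / (x + y)) ≤ 1 := by
      rw [mul_one_div, div_le_one (by positivity)]
      linarith
    have h2 : y * Y ≤ 1 := by
      rw [hY, mul_one_div, div_le_one (by positivity)]
      linarith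
    have h3 : y * |RR D p x y| ≤ 1 + C0 := by
      have := mul_le_mul_of_nonneg_left hR hy0.le
      nlinarith
    rw [Real.norm_eq_abs, abs_mul, abs_mul]
    unfold bet
    rw [abs_mul, abs_of_pos hy0, abs_of_pos hP, abs_of_pos (pow_pos hY0 l)]
    have e : y + 1 = 1 + y := by ring
    rw [e]
    calc y * (1 + y) ^ (-b - 2) * Y ^ l * |RR D p x y|
        = ((1 + y) ^ (-b - 2) * (y * |RR D p x y|)) * Y ^ l := by ring
      _ ≤ ((1 + y) ^ (-b - 2) * (y * |RR D p x y|)) * 1 :=
          mul_le_mul_of_nonneg_left hYl (by positivity)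
      _ ≤ (1 + C0) * (1 + y) ^ (-b - 2) := by
          rw [mul_one, mul_comm]
          exact mul_le_mul_of_nonneg_right h3 hP.le

theorem rl_meas (b : ℝ) (D : ℕ) (p : ℕ → ℕ → ℝ) (l : ℕ) :
    StronglyMeasurable (rl b D p l) := by
  have hm : Measurable (Function.uncurry (fun x y : ℝ =>
      bet b y * (1 / (1 + y)) ^ l * RR D p x y)) := by
    unfold bet RR kp Function.uncurry
    fun_prop
  exact (hm.stronglyMeasurable).integral_prod_right

theorem alp_rl_int {s : ℂ} (hs : ‖s‖ < 1) {b : ℝ} (hb : 0 < b) (hσ : 0 < b + 1 - 2 * s.re)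
    (D : ℕ) (p : ℕ → ℕ → ℝ) (l k : ℕ) :
    IntegrableOn (fun x => alp s b x * rl b D p l x * rl b D p k x) (Ioo 0 1) := by
  obtain ⟨M, hM0, hM⟩ := rl_bdd hb D p
  have h1 : IntegrableOn (fun x => M * M * alp s b x) (Ioo 0 1) :=
    (alp_int hs hσ).const_mul _
  refine Integrable.mono' h1 ?_ ?_
  · exact ((alp_int hs hσ).aestronglyMeasurable.mul
      (rl_meas b D p l).aestronglyMeasurable).mul (rl_meas b D p k).aestronglyMeasurable
  · filter_upwards [ae_restrict_mem measurableSet_Ioo] with x hx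
    have ha : 0 ≤ alp s b x := by
      unfold alp
      have : 0 < x := hx.1
      have : 0 < 1 - x := by linarith [hx.2]
      positivity
    rw [Real.norm_eq_abs, abs_mul, abs_mul, abs_of_nonneg ha]
    have h2 := mul_le_mul (hM l x hx) (hM k x hx) (abs_nonneg _) hM0
    have h3 := mul_le_mul_of_nonneg_left h2 ha
    linarith

theorem Ncross_eq {s : ℂ} (hs : ‖s‖ < 1) {b : ℝ} (hb : 0 < b) (hσ : 0 < b + 1 - 2 * s.re)
    (D : ℕ) (p : ℕ → ℕ → ℝ) (F : ℕ → ℂ) :
    Ncross s b D p F = (1 / B0 s b) * ∑ l ∈ Finset.range (D + 1), ∑ k ∈ Finset.range (D + 1),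
      (conj (F l) * F k).re
        * ∫ x in Ioo (0 : ℝ) 1, alp s b x * rl b D p l x * rl b D p k x := by
  unfold Ncross
  congr 1
  have e : ∀ x : ℝ, alp s b x * ‖∑ l ∈ Finset.range (D + 1), F l * (rl b D p l x : ℂ)‖ ^ 2
      = ∑ l ∈ Finset.range (D + 1), ∑ k ∈ Finset.range (D + 1), (conj (F l) * F k).re
        * (alp s b x * rl b D p l x * rl b D p k x) := by
    intro x
    rw [nsq_sum, Finset.mul_sum]
    apply Finset.sum_congr rfl
    intro l _
    rw [Finset.mul_sum]
    apply Finset.sum_congr rfl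
    intro k _
    have e1 : F l * (rl b D p l x : ℂ) * conj (F k * (rl b D p k x : ℂ))
        = ((rl b D p l x * rl b D p k x : ℝ) : ℂ) * (F l * conj (F k)) := by
      rw [map_mul, Complex.conj_ofReal]
      push_cast
      ring
    have e2 : (conj (F l) * F k).re = (F l * conj (F k)).re := by
      simp only [Complex.mul_re, Complex.conj_re, Complex.conj_im]
      ring
    rw [e1, Complex.re_ofReal_mul, e2]
    ring
  rw [integral_congr_ae (Eventually.of_forall e), integral_finsetSum]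
  · apply Finset.sum_congr rfl
    intro l _
    rw [integral_finsetSum]
    · apply Finset.sum_congr rfl
      intro k _
      rw [integral_const_mul]
    · intro k _
      exact (alp_rl_int hs hb hσ D p l k).const_mul _
  · intro l _
    apply integrable_finsetSum
    intro k _
    exact (alp_rl_int hs hb hσ D p l k).const_mul _

end Pool.Agent.Helper37.PFS
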