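import Mathlib
import Pool.Agent.Helper24.HR2.Defs

/-!
Project HR2 (MP_16b0ee): functions of an antidiagonal which are asymptotically equal, the error
being measured by a power of the sum of the absolute values of the moments.
-/

set_option autoImplicit false

open Filter Topology Finset
open scoped ComplexConjugate

namespace Pool.Agent.Helper37.PFS

open Pool.Agent.Helper24.HR2

/-- palindromic sequences -/
def Pal (m : ℕ) (d : ℕ → ℂ) : Prop := ∀ l ≤ m, d l = d (m - l)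

/-- the sum of the absolute values of the moments -/
noncomputable def G1 (K m : ℕ) (d : ℕ → ℂ) : ℝ := ∑ r ∈ range K, ‖vS d m r‖

theorem G1_nonneg (K m : ℕ) (d : ℕ → ℂ) : 0 ≤ G1 K m d :=
  Finset.sum_nonneg (fun _ _ => norm_nonneg _)

theorem G1_sq_le (K m : ℕ) (d : ℕ → ℂ) :
    G1 K m d ^ 2 ≤ K * ∑ r ∈ range K, ‖vS d m r‖ ^ 2 := by
  have h := sq_sum_le_card_mul_sum_sq (s := range K) (f := fun r => ‖vS d m r‖)
  rw [Finset.card_range] at h
  exact h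

section
variable {E : Type} [NormedRing E]

/-- asymptotic equality of order `k` -/
def Ap (K k : ℕ) (f f' : ℕ → (ℕ → ℂ) → E) : Prop :=
  ∀ η : ℝ, 0 < η → ∃ m0 : ℕ, ∀ m, m0 ≤ m → 1 ≤ m → ∀ d, Pal m d →
    ‖f m d - f' m d‖ ≤ η * G1 K m d ^ k

/-- boundedness of order `k` -/
def Bd (K k : ℕ) (f : ℕ → (ℕ → ℂ) → E) : Prop :=
  ∃ C : ℝ, 0 ≤ C ∧ ∀ m, 1 ≤ m → ∀ d, Pal m d → ‖f m d‖ ≤ C * G1 K m d ^ k

theorem Ap.refl {K k : ℕ} (f : ℕ → (ℕ → ℂ) → E) : Ap K k f f := by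
  intro η hη
  refine ⟨0, fun m _ _ d _ => ?_⟩
  rw [sub_self, norm_zero]
  exact mul_nonneg hη.le (pow_nonneg (G1_nonneg _ _ _) _)

theorem Ap.add {K k : ℕ} {f f' g g' : ℕ → (ℕ → ℂ) → E} (h1 : Ap K k f f') (h2 : Ap K k g g') :
    Ap K k (fun m d => f m d + g m d) (fun m d => f' m d + g' m d) := by
  intro η hη
  obtain ⟨m1, h1⟩ := h1 (η / 2) (by positivity)
  obtain ⟨m2, h2⟩ := h2 (η / 2) (by positivity)
  refine ⟨max m1 m2, fun m hm hm1 d hd => ?_⟩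
  have a1 := h1 m (le_of_max_le_left hm) hm1 d hd
  have a2 := h2 m (le_of_max_le_right hm) hm1 d hd
  have e : f m d + g m d - (f' m d + g' m d) = (f m d - f' m d) + (g m d - g' m d) := by abel
  rw [e]
  refine (norm_add_le _ _).trans ?_
  linarith

theorem Ap.sub {K k : ℕ} {f f' g g' : ℕ → (ℕ → ℂ) → E} (h1 : Ap K k f f') (h2 : Ap K k g g') :
    Ap K k (fun m d => f m d - g m d) (fun m d => f' m d - g' m d) := by
  intro η hη
  obtain ⟨m1, h1⟩ := h1 (η / 2) (by positivity)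
  obtain ⟨m2, h2⟩ := h2 (η / 2) (by positivity)
  refine ⟨max m1 m2, fun m hm hm1 d hd => ?_⟩
  have a1 := h1 m (le_of_max_le_left hm) hm1 d hd
  have a2 := h2 m (le_of_max_le_right hm) hm1 d hd
  have e : f m d - g m d - (f' m d - g' m d) = (f m d - f' m d) - (g m d - g' m d) := by abel
  rw [e]
  refine (norm_sub_le _ _).trans ?_
  linarith

theorem Ap.sum {K k : ℕ} (L : Finset ℕ) {f f' : ℕ → ℕ → (ℕ → ℂ) → E}
    (h : ∀ l ∈ L, Ap K k (f l) (f' l)) :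
    Ap K k (fun m d => ∑ l ∈ L, f l m d) (fun m d => ∑ l ∈ L, f' l m d) := by
  induction L using Finset.induction_on with
  | empty => simpa using Ap.refl (K := K) (k := k) (fun (_ : ℕ) (_ : ℕ → ℂ) => (0 : E))
  | insert a s ha ih =>
    have h1 := h a (Finset.mem_insert_self _ _)
    have h2 := ih (fun l hl => h l (Finset.mem_insert_of_mem hl))
    have h3 := h1.add h2
    simpa only [Finset.sum_insert ha] using h3

theorem Bd.add {K k : ℕ} {f g : ℕ → (ℕ → ℂ) → E} (h1 : Bd K k f) (h2 : Bd K k g) :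
    Bd K k (fun m d => f m d + g m d) := by
  obtain ⟨C1, c1, h1⟩ := h1
  obtain ⟨C2, c2, h2⟩ := h2
  refine ⟨C1 + C2, by positivity, fun m hm d hd => ?_⟩
  refine (norm_add_le _ _).trans ?_
  have := h1 m hm d hd
  have := h2 m hm d hd
  linarith

theorem Bd.zero {K k : ℕ} : Bd K k (fun (_ : ℕ) (_ : ℕ → ℂ) => (0 : E)) :=
  ⟨0, le_rfl, fun m _ d _ => by simp⟩

theorem Bd.sum {K k : ℕ} (L : Finset ℕ) {f : ℕ → ℕ → (ℕ → ℂ) → E}
    (h : ∀ l ∈ L, Bd K k (f l)) : Bd K k (fun m d => ∑ l ∈ L, f l m d) := by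
  induction L using Finset.induction_on with
  | empty => simpa using Bd.zero (K := K) (k := k) (E := E)
  | insert a s ha ih =>
    have h1 := h a (Finset.mem_insert_self _ _)
    have h2 := ih (fun l hl => h l (Finset.mem_insert_of_mem hl))
    have h3 := h1.add h2
    simpa only [Finset.sum_insert ha] using h3

theorem Bd.mul {K j k : ℕ} {f g : ℕ → (ℕ → ℂ) → E} (h1 : Bd K j f) (h2 : Bd K k g) :
    Bd K (j + k) (fun m d => f m d * g m d) := by
  obtain ⟨C1, c1, h1⟩ := h1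
  obtain ⟨C2, c2, h2⟩ := h2
  refine ⟨C1 * C2, by positivity, fun m hm d hd => ?_⟩
  refine (norm_mul_le _ _).trans ?_
  have h3 := mul_le_mul (h1 m hm d hd) (h2 m hm d hd) (norm_nonneg _)
    (mul_nonneg c1 (pow_nonneg (G1_nonneg _ _ _) _))
  refine h3.trans (le_of_eq ?_)
  rw [pow_add]
  ring

theorem Bd.const {K : ℕ} (c : E) : Bd K 0 (fun (_ : ℕ) (_ : ℕ → ℂ) => c) :=
  ⟨‖c‖, norm_nonneg _, fun m _ d _ => by simp⟩

theorem Ap.mul {K j k : ℕ} {f f' g g' : ℕ → (ℕ → ℂ) → E} (h1 : Ap K j f f') (h2 : Ap K k g g')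
    (b1 : Bd K j f') (b2 : Bd K k g') :
    Ap K (j + k) (fun m d => f m d * g m d) (fun m d => f' m d * g' m d) := by
  obtain ⟨C1, c1, b1⟩ := b1
  obtain ⟨C2, c2, b2⟩ := b2
  intro η hη
  set θ := min 1 (η / (C1 + C2 + 1)) with hθ
  have hθ0 : 0 < θ := lt_min one_pos (by positivity)
  have hθ1 : θ ≤ 1 := min_le_left _ _
  have hθ2 : θ * (C1 + C2 + 1) ≤ η := by
    have := min_le_right 1 (η / (C1 + C2 + 1))
    rw [← hθ, le_div_iff₀ (by positivity)] at this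
    exact this
  obtain ⟨m1, h1⟩ := h1 θ hθ0
  obtain ⟨m2, h2⟩ := h2 θ hθ0
  refine ⟨max m1 m2, fun m hm hm1 d hd => ?_⟩
  have a1 := h1 m (le_of_max_le_left hm) hm1 d hd
  have a2 := h2 m (le_of_max_le_right hm) hm1 d hd
  have a3 := b1 m hm1 d hd
  have a4 := b2 m hm1 d hd
  have g0 := pow_nonneg (G1_nonneg K m d) j
  have g1 := pow_nonneg (G1_nonneg K m d) k
  have e : f m d * g m d - f' m d * g' m d
      = (f m d - f' m d) * (g m d - g' m d) + (f m d - f' m d) * g' m d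
        + f' m d * (g m d - g' m d) := by noncomm_ring
  rw [e]
  have n1 : ‖(f m d - f' m d) * (g m d - g' m d)‖
      ≤ (θ * G1 K m d ^ j) * (θ * G1 K m d ^ k) :=
    (norm_mul_le _ _).trans (mul_le_mul a1 a2 (norm_nonneg _) (by positivity))
  have n2 : ‖(f m d - f' m d) * g' m d‖ ≤ (θ * G1 K m d ^ j) * (C2 * G1 K m d ^ k) :=
    (norm_mul_le _ _).trans (mul_le_mul a1 a4 (norm_nonneg _) (by positivity))
  have n3 : ‖f' m d * (g m d - g' m d)‖ ≤ (C1 * G1 K m d ^ j) * (θ * G1 K m d ^ k) :=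
    (norm_mul_le _ _).trans (mul_le_mul a3 a2 (norm_nonneg _) (by positivity))
  refine (norm_add₃_le).trans ?_
  rw [pow_add]
  have hgg : 0 ≤ G1 K m d ^ j * G1 K m d ^ k := mul_nonneg g0 g1
  have f1 : θ * θ ≤ θ * 1 := mul_le_mul_of_nonneg_left hθ1 hθ0.le
  have f2 : θ * θ + θ * C2 + C1 * θ ≤ η := by nlinarith
  calc ‖(f m d - f' m d) * (g m d - g' m d)‖ + ‖(f m d - f' m d) * g' m d‖
        + ‖f' m d * (g m d - g' m d)‖
      ≤ (θ * G1 K m d ^ j) * (θ * G1 K m d ^ k) + (θ * G1 K m d ^ j) * (C2 * G1 K m d ^ k)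
        + (C1 * G1 K m d ^ j) * (θ * G1 K m d ^ k) := by linarith
    _ = (θ * θ + θ * C2 + C1 * θ) * (G1 K m d ^ j * G1 K m d ^ k) := by ring
    _ ≤ η * (G1 K m d ^ j * G1 K m d ^ k) := mul_le_mul_of_nonneg_right f2 hgg

theorem ap_of_tendsto {K : ℕ} {c : ℕ → E} {l : E} (h : Tendsto c atTop (𝓝 l)) :
    Ap K 0 (fun m (_ : ℕ → ℂ) => c m) (fun (_ : ℕ) (_ : ℕ → ℂ) => l) := by
  intro η hη
  obtain ⟨m0, hm0⟩ := Metric.tendsto_atTop.1 h η hη
  refine ⟨m0, fun m hm _ d _ => ?_⟩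
  have := hm0 m hm
  rw [dist_eq_norm] at this
  rw [pow_zero, mul_one]
  exact this.le

/-- an error of size `C / m` -/
theorem ap_of_le {K k : ℕ} {f f' : ℕ → (ℕ → ℂ) → E} {C : ℝ}
    (h : ∀ m : ℕ, 1 ≤ m → ∀ d, Pal m d → ‖f m d - f' m d‖ ≤ C / m * G1 K m d ^ k) :
    Ap K k f f' := by
  intro η hη
  obtain ⟨m0, hm0⟩ := exists_nat_ge (C / η)
  refine ⟨m0, fun m hm hm1 d hd => (h m hm1 d hd).trans ?_⟩
  apply mul_le_mul_of_nonneg_right _ (pow_nonneg (G1_nonneg _ _ _) _)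
  have hm' : (0 : ℝ) < m := by exact_mod_cast hm1
  rw [div_le_iff₀ hm']
  rw [div_le_iff₀ hη] at hm0
  have : (m0 : ℝ) ≤ m := by exact_mod_cast hm
  nlinarith

theorem Ap.cmul {K k : ℕ} {f f' : ℕ → (ℕ → ℂ) → E} (c : E) (h : Ap K k f f') :
    Ap K k (fun m d => c * f m d) (fun m d => c * f' m d) := by
  intro η hη
  obtain ⟨m1, h1⟩ := h (η / (‖c‖ + 1)) (by positivity)
  refine ⟨m1, fun m hm hm1 d hd => ?_⟩
  have a1 := h1 m hm hm1 d hd
  rw [← mul_sub]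
  refine (norm_mul_le _ _).trans ?_
  have hg := pow_nonneg (G1_nonneg K m d) k
  have h3 := mul_le_mul_of_nonneg_left a1 (norm_nonneg c)
  refine h3.trans ?_
  rw [← mul_assoc]
  apply mul_le_mul_of_nonneg_right _ hg
  rw [mul_div_assoc']
  rw [div_le_iff₀ (by positivity)]
  nlinarith [norm_nonneg c]

end

theorem Ap.conj {K k : ℕ} {f f' : ℕ → (ℕ → ℂ) → ℂ} (h : Ap K k f f') :
    Ap K k (fun m d => conj (f m d)) (fun m d => conj (f' m d)) := by
  intro η hη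
  obtain ⟨m0, h⟩ := h η hη
  refine ⟨m0, fun m hm hm1 d hd => ?_⟩
  rw [← map_sub, RCLike.norm_conj]
  exact h m hm hm1 d hd

theorem Bd.conj {K k : ℕ} {f : ℕ → (ℕ → ℂ) → ℂ} (h : Bd K k f) :
    Bd K k (fun m d => conj (f m d)) := by
  obtain ⟨C, c, h⟩ := h
  refine ⟨C, c, fun m hm d hd => ?_⟩
  rw [RCLike.norm_conj]
  exact h m hm d hd

theorem Ap.re {K k : ℕ} {f f' : ℕ → (ℕ → ℂ) → ℂ} (h : Ap K k f f') :
    Ap K k (fun m d => (f m d).re) (fun m d => (f' m d).re) := by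
  intro η hη
  obtain ⟨m0, h⟩ := h η hη
  refine ⟨m0, fun m hm hm1 d hd => ?_⟩
  rw [← Complex.sub_re]
  exact (Complex.abs_re_le_norm _).trans (h m hm hm1 d hd)

theorem Bd.re {K k : ℕ} {f : ℕ → (ℕ → ℂ) → ℂ} (h : Bd K k f) :
    Bd K k (fun m d => (f m d).re) := by
  obtain ⟨C, c, h⟩ := h
  refine ⟨C, c, fun m hm d hd => ?_⟩
  exact (Complex.abs_re_le_norm _).trans (h m hm d hd)

/-- the moments themselves -/
theorem bd_vS {K r : ℕ} (hr : r < K) : Bd K 1 (fun m d => vS d m r) := by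
  refine ⟨1, zero_le_one, fun m _ d _ => ?_⟩
  rw [pow_one, one_mul]
  exact Finset.single_le_sum (f := fun r => ‖vS d m r‖) (fun _ _ => norm_nonneg _)
    (Finset.mem_range.2 hr)

/-- the final use: a lower bound -/
theorem Ap.lower {K k : ℕ} {f f' : ℕ → (ℕ → ℂ) → ℝ} (h : Ap K k f f') {η : ℝ} (hη : 0 < η) :
    ∃ m0 : ℕ, ∀ m, m0 ≤ m → 1 ≤ m → ∀ d, Pal m d →
      f' m d - η * G1 K m d ^ k ≤ f m d := by
  obtain ⟨m0, h⟩ := h η hη
  refine ⟨m0, fun m hm hm1 d hd => ?_⟩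
  have := (abs_le.1 (h m hm hm1 d hd)).1
  linarith

end Pool.Agent.Helper37.PFS
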