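import Mathlib
import Pool.Agent.Helper24.HR2.Defs

/-!
Project HR2 (MP_16b0ee): the upper form in the normal form used in the inequality of large order.
-/

set_option autoImplicit false

open Filter Topology Finset
open scoped ComplexConjugate

namespace Pool.Agent.Helper37.PFS

open Pool.Agent.Helper24.HR2
open Pool.Agent.Helper22.Half

/-- the functionals -/
noncomputable def Phi (s : ℂ) (d : ℕ → ℂ) (m n : ℕ) : ℂ :=
  ∑ i ∈ range m, XD s m n i * UD s d m i

theorem XD_zero (s : ℂ) (m i : ℕ) : XD s m 0 i = 1 := by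
  simp [XD]

theorem one_add_ne {s : ℂ} (hs : ‖s‖ < 1) : (1 + s) ≠ 0 := by
  intro h
  have h2 : s = -1 := by linear_combination h
  rw [h2] at hs
  simp at hs

theorem nat_sub_ne {s : ℂ} (hs : ‖s‖ < 1) (k : ℕ) : (((k + 1 : ℕ) : ℂ) - s) ≠ 0 := by
  intro h
  have h2 : s = ((k + 1 : ℕ) : ℂ) := by linear_combination -h
  rw [h2, Complex.norm_natCast] at hs
  push_cast at hs
  have : (0 : ℝ) ≤ k := Nat.cast_nonneg k
  linarith

theorem Vd_eq {s : ℂ} (hs : ‖s‖ < 1) {m : ℕ} (hm : 1 ≤ m) {d : ℕ → ℂ}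
    (hd : ∀ l ≤ m, d l = d (m - l)) (j : ℕ) :
    Vd s d m (m + 1 + j) = ((1 + s) * pq (-s) (m + 1 + j)) * ((m : ℂ)⁻¹
      * ∑ i ∈ range m, UD s d m i * (2 / (1 + s) + kD s m i j)) := by
  have hm0 : (m : ℂ) ≠ 0 := by
    have : m ≠ 0 := by omega
    exact_mod_cast this
  have h1s := one_add_ne hs
  have hV := V_formula s d m (j + 1) hm h1s hd (fun k => by
    have := nat_sub_ne hs (j + k)
    have e : j + k + 1 = j + 1 + k := by ring
    rwa [e] at this)
  have e : m + (j + 1) = m + 1 + j := by ring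
  rw [e] at hV
  rw [hV, Finset.mul_sum, Finset.mul_sum, Finset.mul_sum]
  apply Finset.sum_congr rfl
  intro i hi
  rw [Finset.mem_range] at hi
  have h3 := pq_shift (1 + s) (m - 1 - i)
  have e1 : m - 1 - i + 1 = m - i := by omega
  rw [e1] at h3
  have e2 : (((m - 1 - i : ℕ) : ℂ) + 1) = ((m - i : ℕ) : ℂ) := by
    have : m - i = (m - 1 - i) + 1 := by omega
    rw [this]
    push_cast
    ring
  rw [e2] at h3
  have e3 : (1 + s + 1 : ℂ) = s + 2 := by ring
  rw [e3] at h3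
  have h4 : (((j + 1 + i : ℕ) : ℂ) - s) ≠ 0 := by
    have := nat_sub_ne hs (j + i)
    have e : j + i + 1 = j + 1 + i := by ring
    rwa [e] at this
  rw [h3]
  unfold UD kD
  field_simp

theorem inner_eq (s : ℂ) (D : ℕ) (p : ℕ → ℕ → ℝ) (m : ℕ) (d : ℕ → ℂ) (j : ℕ) :
    ∑ i ∈ range m, UD s d m i * (2 / (1 + s) + kD s m i j)
      = (∑ l ∈ range (D + 1), FF s D p (Phi s d m) l * (YD m j : ℂ) ^ l)
        + ∑ i ∈ range m, UD s d m i * rD s D p m i j := by
  rw [Finset.sum_range_succ']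
  have e0 : FF s D p (Phi s d m) 0 = 2 / (1 + s) * ∑ i ∈ range m, UD s d m i := by
    simp only [FF, Phi, XD_zero, one_mul]
  have e1 : ∑ l ∈ range D, FF s D p (Phi s d m) (l + 1) * (YD m j : ℂ) ^ (l + 1)
      = ∑ i ∈ range m, UD s d m i * ∑ n ∈ range D, ∑ l ∈ range D,
        (p n l : ℂ) * XD s m n i * (YD m j : ℂ) ^ (l + 1) := by
    have h1 : ∑ l ∈ range D, FF s D p (Phi s d m) (l + 1) * (YD m j : ℂ) ^ (l + 1)
        = ∑ l ∈ range D, ∑ n ∈ range D, ∑ i ∈ range m,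
          UD s d m i * ((p n l : ℂ) * XD s m n i * (YD m j : ℂ) ^ (l + 1)) := by
      apply Finset.sum_congr rfl
      intro l _
      simp only [FF, Phi]
      rw [Finset.sum_mul]
      apply Finset.sum_congr rfl
      intro n _
      rw [Finset.mul_sum, Finset.sum_mul]
      apply Finset.sum_congr rfl
      intro i _
      ring
    have h2 : ∑ i ∈ range m, UD s d m i * ∑ n ∈ range D, ∑ l ∈ range D,
        (p n l : ℂ) * XD s m n i * (YD m j : ℂ) ^ (l + 1)
        = ∑ i ∈ range m, ∑ n ∈ range D, ∑ l ∈ range D,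
          UD s d m i * ((p n l : ℂ) * XD s m n i * (YD m j : ℂ) ^ (l + 1)) := by
      apply Finset.sum_congr rfl
      intro i _
      rw [Finset.mul_sum]
      apply Finset.sum_congr rfl
      intro n _
      rw [Finset.mul_sum]
    rw [h1, h2]
    calc ∑ l ∈ range D, ∑ n ∈ range D, ∑ i ∈ range m,
          UD s d m i * ((p n l : ℂ) * XD s m n i * (YD m j : ℂ) ^ (l + 1))
        = ∑ n ∈ range D, ∑ l ∈ range D, ∑ i ∈ range m,
          UD s d m i * ((p n l : ℂ) * XD s m n i * (YD m j : ℂ) ^ (l + 1)) := Finset.sum_comm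
      _ = ∑ n ∈ range D, ∑ i ∈ range m, ∑ l ∈ range D,
          UD s d m i * ((p n l : ℂ) * XD s m n i * (YD m j : ℂ) ^ (l + 1)) :=
        Finset.sum_congr rfl (fun n _ => Finset.sum_comm)
      _ = ∑ i ∈ range m, ∑ n ∈ range D, ∑ l ∈ range D,
          UD s d m i * ((p n l : ℂ) * XD s m n i * (YD m j : ℂ) ^ (l + 1)) := Finset.sum_comm
  rw [e0, e1, pow_zero, mul_one, Finset.mul_sum, ← Finset.sum_add_distrib,
    ← Finset.sum_add_distrib]
  apply Finset.sum_congr rfl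
  intro i _
  unfold rD
  ring

theorem Nf_eq {s : ℂ} (hs : ‖s‖ < 1) (b : ℝ) (D : ℕ) (p : ℕ → ℕ → ℝ) {m : ℕ} (hm : 1 ≤ m)
    {d : ℕ → ℂ} (hd : ∀ l ≤ m, d l = d (m - l)) (J : ℕ) :
    Nf s b d m J = ∑ j ∈ range J, (bD s b m j / (m : ℝ) ^ 2)
      * ‖(∑ l ∈ range (D + 1), FF s D p (Phi s d m) l * (YD m j : ℂ) ^ l)
        + ∑ i ∈ range m, UD s d m i * rD s D p m i j‖ ^ 2 := by
  unfold Nf
  apply Finset.sum_congr rfl
  intro j _
  rw [Vd_eq hs hm hd j, inner_eq s D p m d j, norm_mul, norm_mul _⁻¹, norm_inv,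
    Complex.norm_natCast]
  unfold bD
  ring

/-- `FF` is homogeneous -/
theorem FF_smul (s : ℂ) (D : ℕ) (p : ℕ → ℕ → ℝ) (μ : ℕ → ℂ) (c : ℂ) (l : ℕ) :
    FF s D p (fun n => c * μ n) l = c * FF s D p μ l := by
  cases l with
  | zero => simp only [FF]; ring
  | succ l =>
    simp only [FF]
    rw [Finset.mul_sum]
    apply Finset.sum_congr rfl
    intro n _
    ring

end Pool.Agent.Helper37.PFS
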