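import Mathlib
import Pool.Agent.Helper24.HR2.Defs
import Pool.Agent.Helper24.HR2.PLowerA
import Pool.Agent.Helper37.PFS.Fin
import Pool.Agent.Helper37.PFS.Nfe

/-!
Project HR2 (MP_16b0ee): the inequality for one order, before the passage to the limit.
-/

set_option autoImplicit false

open Filter Topology Finset
open scoped ComplexConjugate

namespace Pool.Agent.Helper37.PFS

open Pool.Agent.Helper24.HR2
open Pool.Agent.Helper22.Half

/-- sums over the column index -/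
noncomputable def Sd (s : ℂ) (b : ℝ) (D : ℕ) (p : ℕ → ℕ → ℝ) (m l i : ℕ) : ℂ :=
  ∑' j, (bD s b m j : ℂ) * (YD m j : ℂ) ^ l * rD s D p m i j

/-- discrete Gram matrix -/
noncomputable def Gd (s : ℂ) (b : ℝ) (m n k : ℕ) : ℂ :=
  (∑ i ∈ range m, ((pq (2 + 2 * s.re) (m - 1 - i) * pq (b + 1 - 2 * s.re) i : ℝ) : ℂ)
    * (XD s m n i * conj (XD s m k i))) / (pq (b + 3) (m - 1) : ℝ)

/-- discrete moments of the column densities -/
noncomputable def Ad (s : ℂ) (b : ℝ) (m l : ℕ) : ℝ :=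
  KS s * pq (b + 3) (m - 1) / (m : ℝ) ^ 2 * ∑' j, bD s b m j * YD m j ^ l

/-- discrete cross moments -/
noncomputable def Xd (s : ℂ) (b : ℝ) (D : ℕ) (p : ℕ → ℕ → ℝ) (m l n : ℕ) : ℂ :=
  (1 / (m : ℂ) ^ 2) * ∑ i ∈ Finset.range m,
      (aD s b m i : ℂ) * conj (XD s m n i) * Sd s b D p m l i

/-- discrete Gram matrix of the cross functions -/
noncomputable def Cd (s : ℂ) (b : ℝ) (D : ℕ) (p : ℕ → ℕ → ℝ) (m l k : ℕ) : ℂ :=
  ((KS s * pq (b + 3) (m - 1) / (m : ℝ) ^ 4 : ℝ) : ℂ)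
      * ∑ i ∈ Finset.range m, (aD s b m i : ℂ)
        * (Sd s b D p m l i * conj (Sd s b D p m k i))

/-- the normalised functionals -/
noncomputable def ph (s : ℂ) (d : ℕ → ℂ) (m n : ℕ) : ℂ := Phi s d m n / m

/-- the discrete form -/
noncomputable def Ed (s : ℂ) (b : ℝ) (D N : ℕ) (p : ℕ → ℕ → ℝ) (κ τ HS : ℝ) (m : ℕ) (d : ℕ → ℂ)
    (y : ℕ → ℂ) : ℝ :=
  2 * (∑ n ∈ range N, conj (y n) * ph s d m n).re
    - (1 + (1 + 1 / κ) * HS) * (∑ n ∈ range N, ∑ k ∈ range N, y n * conj (y k) * Gd s b m k n).re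
    - (∑ l ∈ range (D + 1), ∑ k ∈ range (D + 1),
        (FF s D p (ph s d m) l * conj (FF s D p (ph s d m) k)).re * Ad s b m (l + k))
    - 2 * (∑ l ∈ range (D + 1), ∑ n ∈ range N,
        conj (FF s D p (ph s d m) l) * y n * Xd s b D p m l n).re
    - 1 / τ * (∑ l ∈ range (D + 1), ∑ k ∈ range (D + 1),
        conj (FF s D p (ph s d m) l) * FF s D p (ph s d m) k * Cd s b D p m l k).re

theorem aD_pos {s : ℂ} (hs : ‖s‖ < 1) {b : ℝ} (hσ : 0 < b + 1 - 2 * s.re) (m i : ℕ) :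
    0 < aD s b m i := by
  have hr : -1 < s.re := by
    have := Complex.abs_re_le_norm s
    have := neg_abs_le s.re
    linarith
  have h1 := kap_ge_one hr (by positivity : 0 ≤ ‖s‖ ^ 2) (m - 1 - i)
  have h2 := pq_pos (z := 2 + 2 * s.re) (by linarith) (m - 1 - i)
  have h3 := pq_pos hσ i
  unfold aD
  have h0 : 0 < kap s.re (‖s‖ ^ 2) (m - 1 - i) := by linarith
  positivity

theorem bD_nonneg {s : ℂ} {b : ℝ} (hσ : 0 < b + 1 - 2 * s.re) (m j : ℕ) :
    0 ≤ bD s b m j := by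
  have h3 := pq_pos hσ (m + 1 + j)
  unfold bD
  positivity

/-- squares of sums, complex form -/
theorem nsq_sum' (L : Finset ℕ) (x : ℕ → ℂ) :
    ((‖∑ l ∈ L, x l‖ ^ 2 : ℝ) : ℂ) = ∑ l ∈ L, ∑ k ∈ L, x l * conj (x k) := by
  rw [← Complex.normSq_eq_norm_sq, ← Complex.mul_conj, map_sum, Finset.sum_mul_sum]

theorem wsum_sq (I L : Finset ℕ) (a : ℕ → ℝ) (x : ℕ → ℕ → ℂ) :
    ∑ i ∈ I, a i * ‖∑ l ∈ L, x l i‖ ^ 2
      = (∑ l ∈ L, ∑ k ∈ L, ∑ i ∈ I, (a i : ℂ) * (x l i * conj (x k i))).re := by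
  have h : ((∑ i ∈ I, a i * ‖∑ l ∈ L, x l i‖ ^ 2 : ℝ) : ℂ)
      = ∑ l ∈ L, ∑ k ∈ L, ∑ i ∈ I, (a i : ℂ) * (x l i * conj (x k i)) := by
    push_cast
    have e : ∀ i ∈ I, (a i : ℂ) * (‖∑ l ∈ L, x l i‖ : ℂ) ^ 2
        = ∑ l ∈ L, ∑ k ∈ L, (a i : ℂ) * (x l i * conj (x k i)) := by
      intro i _
      have := nsq_sum' L (fun l => x l i)
      push_cast at this
      rw [this, Finset.mul_sum]
      apply Finset.sum_congr rfl
      intro l _
      rw [Finset.mul_sum]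
    rw [Finset.sum_congr rfl e, Finset.sum_comm]
    apply Finset.sum_congr rfl
    intro l _
    rw [Finset.sum_comm]
  have h2 := congrArg Complex.re h
  rw [Complex.ofReal_re] at h2
  exact h2

theorem ph_eq (s : ℂ) (d : ℕ → ℂ) {m : ℕ} (hm : 1 ≤ m) (n : ℕ) :
    Phi s d m n = (m : ℂ) * ph s d m n := by
  have hm0 : (m : ℂ) ≠ 0 := by
    have : m ≠ 0 := by omega
    exact_mod_cast this
  unfold ph
  field_simp

theorem FF_Phi (s : ℂ) (D : ℕ) (p : ℕ → ℕ → ℝ) (d : ℕ → ℂ) {m : ℕ} (hm : 1 ≤ m) (l : ℕ) :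
    FF s D p (Phi s d m) l = (m : ℂ) * FF s D p (ph s d m) l := by
  rw [← FF_smul]
  congr 1
  funext n
  exact ph_eq s d hm n

/-- the linear term -/
theorem term1 (s : ℂ) (N : ℕ) {m : ℕ} (hm : 1 ≤ m) (d y : ℕ → ℂ) (k0 : ℝ) :
    2 * (∑ i ∈ range m, conj (((m / k0 : ℝ) : ℂ) * ∑ n ∈ range N, y n * conj (XD s m n i))
        * UD s d m i).re
      = (m : ℝ) ^ 2 / k0 * (2 * (∑ n ∈ range N, conj (y n) * ph s d m n).re) := by
  have h : ∑ i ∈ range m, conj (((m / k0 : ℝ) : ℂ) * ∑ n ∈ range N, y n * conj (XD s m n i))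
        * UD s d m i = (((m : ℝ) ^ 2 / k0 : ℝ) : ℂ) * ∑ n ∈ range N, conj (y n) * ph s d m n := by
    have e1 : ∀ i ∈ range m, conj (((m / k0 : ℝ) : ℂ) * ∑ n ∈ range N, y n * conj (XD s m n i))
        * UD s d m i = ∑ n ∈ range N, ((m / k0 : ℝ) : ℂ) * (conj (y n)
          * (XD s m n i * UD s d m i)) := by
      intro i _
      rw [map_mul, Complex.conj_ofReal, map_sum, mul_assoc, Finset.sum_mul, Finset.mul_sum]
      apply Finset.sum_congr rfl
      intro n _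
      rw [map_mul, Complex.conj_conj]
      ring
    rw [Finset.sum_congr rfl e1, Finset.sum_comm, Finset.mul_sum]
    apply Finset.sum_congr rfl
    intro n _
    rw [← Finset.mul_sum, ← Finset.mul_sum]
    have e2 := ph_eq s d hm n
    unfold Phi at e2
    rw [e2]
    push_cast
    ring
  rw [h, Complex.re_ofReal_mul]
  ring

/-- the quadratic term in the test vector -/
theorem term2 {s : ℂ} (hs : ‖s‖ < 1) {b : ℝ} (hb : 0 < b) (hσ : 0 < b + 1 - 2 * s.re) (N : ℕ)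
    {m : ℕ} (hm : 1 ≤ m) (y : ℕ → ℂ) :
    ∑ i ∈ range m, aD s b m i * ‖((m / (KS s * pq (b + 3) (m - 1)) : ℝ) : ℂ)
        * ∑ n ∈ range N, y n * conj (XD s m n i)‖ ^ 2
      ≤ (m : ℝ) ^ 2 / (KS s * pq (b + 3) (m - 1))
        * (∑ n ∈ range N, ∑ k ∈ range N, y n * conj (y k) * Gd s b m k n).re := by
  have hKS := KS_facts hs
  have hK0 : 0 < KS s := by linarith [hKS.1]
  have hS0 := pq_pos (z := b + 3) (by linarith) (m - 1)
  have hr : -1 < s.re := by
    have := Complex.abs_re_le_norm s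
    have := neg_abs_le s.re
    linarith
  have hm0 : (0 : ℝ) < m := by exact_mod_cast hm
  set S0 := pq (b + 3) (m - 1) with hS0d
  set W : ℕ → ℝ := fun i => pq (2 + 2 * s.re) (m - 1 - i) * pq (b + 1 - 2 * s.re) i with hW
  have hWp : ∀ i, 0 < W i := fun i =>
    mul_pos (pq_pos (z := 2 + 2 * s.re) (by linarith) _) (pq_pos hσ i)
  have haW : ∀ i, aD s b m i ≤ KS s * W i := by
    intro i
    have h1 := mul_le_mul_of_nonneg_right (hKS.2.1 (m - 1 - i)) (hWp i).le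
    refine le_trans (le_of_eq ?_) h1
    simp only [aD, hW]
    ring
  have h2 : ∑ i ∈ range m, W i * ‖∑ n ∈ range N, y n * conj (XD s m n i)‖ ^ 2
      = S0 * (∑ n ∈ range N, ∑ k ∈ range N, y n * conj (y k) * Gd s b m k n).re := by
    have e := wsum_sq (range m) (range N) W (fun n i => y n * conj (XD s m n i))
    rw [e, ← Complex.re_ofReal_mul, Finset.mul_sum]
    congr 1
    apply Finset.sum_congr rfl
    intro n _
    rw [Finset.mul_sum]
    apply Finset.sum_congr rfl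
    intro k _
    unfold Gd
    rw [← hS0d]
    have hS0c : (S0 : ℂ) ≠ 0 := by exact_mod_cast hS0.ne'
    have e3 : (S0 : ℂ) * (y n * conj (y k) * ((∑ i ∈ range m,
        ((pq (2 + 2 * s.re) (m - 1 - i) * pq (b + 1 - 2 * s.re) i : ℝ) : ℂ)
          * (XD s m k i * conj (XD s m n i))) / (S0 : ℂ)))
        = y n * conj (y k) * ∑ i ∈ range m,
          ((pq (2 + 2 * s.re) (m - 1 - i) * pq (b + 1 - 2 * s.re) i : ℝ) : ℂ)
          * (XD s m k i * conj (XD s m n i)) := by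
      field_simp
    rw [e3, Finset.mul_sum]
    apply Finset.sum_congr rfl
    intro i _
    simp only [hW]
    rw [map_mul, Complex.conj_conj]
    ring
  have h3 : ∑ i ∈ range m, aD s b m i * ‖((m / (KS s * S0) : ℝ) : ℂ)
        * ∑ n ∈ range N, y n * conj (XD s m n i)‖ ^ 2
      ≤ (m / (KS s * S0)) ^ 2 * (KS s * ∑ i ∈ range m, W i
          * ‖∑ n ∈ range N, y n * conj (XD s m n i)‖ ^ 2) := by
    rw [Finset.mul_sum, Finset.mul_sum]
    apply Finset.sum_le_sum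
    intro i _
    rw [norm_mul, Complex.norm_real, Real.norm_of_nonneg (by positivity), mul_pow]
    have h4 := mul_le_mul_of_nonneg_right (haW i)
      (by positivity : 0 ≤ (m / (KS s * S0)) ^ 2
        * ‖∑ n ∈ range N, y n * conj (XD s m n i)‖ ^ 2)
    refine h4.trans (le_of_eq ?_)
    ring
  refine h3.trans (le_of_eq ?_)
  rw [h2]
  field_simp

/-- the polynomial part -/
theorem term3 {s : ℂ} (hs : ‖s‖ < 1) {b : ℝ} (hb : 0 < b) (D : ℕ) (p : ℕ → ℕ → ℝ)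
    {m : ℕ} (hm : 1 ≤ m) (d : ℕ → ℂ) :
    ∑ l ∈ range (D + 1), ∑ k ∈ range (D + 1),
        (FF s D p (Phi s d m) l * conj (FF s D p (Phi s d m) k)).re
          * ((∑' j, bD s b m j * YD m j ^ (l + k)) / (m : ℝ) ^ 2)
      = (m : ℝ) ^ 2 / (KS s * pq (b + 3) (m - 1))
        * ∑ l ∈ range (D + 1), ∑ k ∈ range (D + 1),
        (FF s D p (ph s d m) l * conj (FF s D p (ph s d m) k)).re * Ad s b m (l + k) := by
  have hKS := KS_facts hs
  have hK0 : 0 < KS s := by linarith [hKS.1]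
  have hS0 := pq_pos (z := b + 3) (by linarith) (m - 1)
  have hm0 : (0 : ℝ) < m := by exact_mod_cast hm
  rw [Finset.mul_sum]
  apply Finset.sum_congr rfl
  intro l _
  rw [Finset.mul_sum]
  apply Finset.sum_congr rfl
  intro k _
  rw [FF_Phi s D p d hm, FF_Phi s D p d hm]
  have e : (m : ℂ) * FF s D p (ph s d m) l * conj ((m : ℂ) * FF s D p (ph s d m) k)
      = (((m : ℝ) ^ 2 : ℝ) : ℂ) * (FF s D p (ph s d m) l * conj (FF s D p (ph s d m) k)) := by
    rw [map_mul, Complex.conj_natCast]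
    push_cast
    ring
  rw [e, Complex.re_ofReal_mul]
  unfold Ad
  field_simp

/-- the cross term with the test vector -/
theorem term4 {s : ℂ} (hs : ‖s‖ < 1) {b : ℝ} (hb : 0 < b) (D N : ℕ) (p : ℕ → ℕ → ℝ)
    {m : ℕ} (hm : 1 ≤ m) (d y : ℕ → ℂ) :
    2 * (∑ l ∈ range (D + 1), conj (FF s D p (Phi s d m) l)
        * ∑ i ∈ range m, ((aD s b m i : ℂ) * (((m / (KS s * pq (b + 3) (m - 1)) : ℝ) : ℂ)
        * ∑ n ∈ range N, y n * conj (XD s m n i))) * (Sd s b D p m l i / (m : ℂ) ^ 2)).re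
      = (m : ℝ) ^ 2 / (KS s * pq (b + 3) (m - 1))
        * (2 * (∑ l ∈ range (D + 1), ∑ n ∈ range N,
        conj (FF s D p (ph s d m) l) * y n * Xd s b D p m l n).re) := by
  have hKS := KS_facts hs
  have hK0 : 0 < KS s := by linarith [hKS.1]
  have hS0 := pq_pos (z := b + 3) (by linarith) (m - 1)
  have hm0 : (0 : ℝ) < m := by exact_mod_cast hm
  have hmc : (m : ℂ) ≠ 0 := by exact_mod_cast hm0.ne'
  have hKc : (KS s : ℂ) ≠ 0 := by exact_mod_cast hK0.ne'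
  have hSc : ((pq (b + 3) (m - 1) : ℝ) : ℂ) ≠ 0 := by exact_mod_cast hS0.ne'
  have h : ∑ l ∈ range (D + 1), conj (FF s D p (Phi s d m) l)
        * ∑ i ∈ range m, ((aD s b m i : ℂ) * (((m / (KS s * pq (b + 3) (m - 1)) : ℝ) : ℂ)
        * ∑ n ∈ range N, y n * conj (XD s m n i))) * (Sd s b D p m l i / (m : ℂ) ^ 2)
      = (((m : ℝ) ^ 2 / (KS s * pq (b + 3) (m - 1)) : ℝ) : ℂ)
        * ∑ l ∈ range (D + 1), ∑ n ∈ range N,
        conj (FF s D p (ph s d m) l) * y n * Xd s b D p m l n := by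
    rw [Finset.mul_sum]
    apply Finset.sum_congr rfl
    intro l _
    rw [FF_Phi s D p d hm, map_mul, Complex.conj_natCast]
    have e1 : ∀ i ∈ range m, ((aD s b m i : ℂ)
        * (((m / (KS s * pq (b + 3) (m - 1)) : ℝ) : ℂ)
        * ∑ n ∈ range N, y n * conj (XD s m n i))) * (Sd s b D p m l i / (m : ℂ) ^ 2)
        = ∑ n ∈ range N, (((m / (KS s * pq (b + 3) (m - 1)) : ℝ) : ℂ) / (m : ℂ) ^ 2 * y n)
          * ((aD s b m i : ℂ) * conj (XD s m n i) * Sd s b D p m l i) := by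
      intro i _
      rw [Finset.mul_sum, Finset.mul_sum, Finset.sum_mul]
      apply Finset.sum_congr rfl
      intro n _
      ring
    rw [Finset.sum_congr rfl e1, Finset.sum_comm, Finset.mul_sum, Finset.mul_sum]
    apply Finset.sum_congr rfl
    intro n _
    rw [← Finset.mul_sum]
    unfold Xd
    push_cast
    field_simp
  rw [h, Complex.re_ofReal_mul]
  ring

/-- the Gram term of the cross functions -/
theorem term5 {s : ℂ} (hs : ‖s‖ < 1) {b : ℝ} (hb : 0 < b) (D : ℕ) (p : ℕ → ℕ → ℝ)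
    {m : ℕ} (hm : 1 ≤ m) (d : ℕ → ℂ) :
    ∑ i ∈ range m, aD s b m i * ‖∑ l ∈ range (D + 1), conj (FF s D p (Phi s d m) l)
        * (Sd s b D p m l i / (m : ℂ) ^ 2)‖ ^ 2
      = (m : ℝ) ^ 2 / (KS s * pq (b + 3) (m - 1))
        * (∑ l ∈ range (D + 1), ∑ k ∈ range (D + 1),
        conj (FF s D p (ph s d m) l) * FF s D p (ph s d m) k * Cd s b D p m l k).re := by
  have hKS := KS_facts hs
  have hK0 : 0 < KS s := by linarith [hKS.1]
  have hS0 := pq_pos (z := b + 3) (by linarith) (m - 1)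
  have hm0 : (0 : ℝ) < m := by exact_mod_cast hm
  have hmc : (m : ℂ) ≠ 0 := by exact_mod_cast hm0.ne'
  have hKc : (KS s : ℂ) ≠ 0 := by exact_mod_cast hK0.ne'
  have hSc : ((pq (b + 3) (m - 1) : ℝ) : ℂ) ≠ 0 := by exact_mod_cast hS0.ne'
  rw [wsum_sq (range m) (range (D + 1)) (aD s b m)
    (fun l i => conj (FF s D p (Phi s d m) l) * (Sd s b D p m l i / (m : ℂ) ^ 2)),
    ← Complex.re_ofReal_mul, Finset.mul_sum]
  congr 1
  apply Finset.sum_congr rfl
  intro l _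
  rw [Finset.mul_sum]
  apply Finset.sum_congr rfl
  intro k _
  rw [FF_Phi s D p d hm, FF_Phi s D p d hm]
  have e1 : ∀ i ∈ range m, (aD s b m i : ℂ) * (conj ((m : ℂ) * FF s D p (ph s d m) l)
      * (Sd s b D p m l i / (m : ℂ) ^ 2)
      * conj (conj ((m : ℂ) * FF s D p (ph s d m) k) * (Sd s b D p m k i / (m : ℂ) ^ 2)))
      = (conj (FF s D p (ph s d m) l) * FF s D p (ph s d m) k / (m : ℂ) ^ 2)
        * ((aD s b m i : ℂ) * (Sd s b D p m l i * conj (Sd s b D p m k i))) := by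
    intro i _
    simp only [map_mul, map_div₀, map_pow, Complex.conj_natCast, Complex.conj_conj]
    field_simp
  rw [Finset.sum_congr rfl e1, ← Finset.mul_sum]
  unfold Cd
  push_cast
  field_simp

theorem disc {s : ℂ} (hs : ‖s‖ < 1) {b : ℝ} (hb : 0 < b) (hσ : 0 < b + 1 - 2 * s.re) {N D : ℕ}
    (p : ℕ → ℕ → ℝ) {κ τ HS : ℝ} (hκ : 0 < κ) (hτ : 0 < τ) (h1 : (1 + κ) * HS + τ ≤ 1)
    {m : ℕ} (hm : 1 ≤ m)
    (hHS : ∀ J : ℕ, 1 / (m : ℝ) ^ 2 * ∑ j ∈ Finset.range J, ∑ i ∈ Finset.range m,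
      bD s b m j * aD s b m i * ‖rD s D p m i j‖ ^ 2 ≤ HS)
    (hA : ∀ l, Summable (fun j => bD s b m j * YD m j ^ l))
    (hS : ∀ l i, i < m →
      Summable (fun j => (bD s b m j : ℂ) * (YD m j : ℂ) ^ l * rD s D p m i j))
    {d : ℕ → ℂ} (hd : ∀ l ≤ m, d l = d (m - l)) (y : ℕ → ℂ) (J : ℕ) :
    (m : ℝ) ^ 2 / (KS s * pq (b + 3) (m - 1)) * Ed s b D N p κ τ HS m d y
      ≤ Pf s b d m - Nf s b d m J := by
  have hKS := KS_facts hs
  have hK0 : 0 < KS s := by linarith [hKS.1]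
  have hS0 := pq_pos (z := b + 3) (by linarith) (m - 1)
  have hm0 : (0 : ℝ) < m := by exact_mod_cast hm
  have hHS0 : 0 ≤ HS := by
    have := hHS 0
    simpa using this
  have hA' : ∀ l, Tendsto (fun J => ∑ j ∈ range J, (bD s b m j / (m : ℝ) ^ 2) * YD m j ^ l) atTop
      (𝓝 ((∑' j, bD s b m j * YD m j ^ l) / (m : ℝ) ^ 2)) := by
    intro l
    have h := ((hA l).hasSum.tendsto_sum_nat).div_const ((m : ℝ) ^ 2)
    refine h.congr (fun J => ?_)
    rw [Finset.sum_div]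
    apply Finset.sum_congr rfl
    intro j _
    ring
  have hS' : ∀ l, ∀ i ∈ range m, Tendsto (fun J => ∑ j ∈ range J,
      ((bD s b m j / (m : ℝ) ^ 2 : ℝ) : ℂ) * (YD m j : ℂ) ^ l * rD s D p m i j) atTop
      (𝓝 (Sd s b D p m l i / (m : ℂ) ^ 2)) := by
    intro l i hi
    have h := ((hS l i (Finset.mem_range.1 hi)).hasSum.tendsto_sum_nat).div_const ((m : ℂ) ^ 2)
    refine h.congr (fun J => ?_)
    rw [Finset.sum_div]
    apply Finset.sum_congr rfl
    intro j _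
    push_cast
    ring
  have hHS' : ∀ J, ∑ j ∈ range J, ∑ i ∈ range m,
      (bD s b m j / (m : ℝ) ^ 2) * aD s b m i * ‖rD s D p m i j‖ ^ 2 ≤ HS := by
    intro J
    refine le_trans (le_of_eq ?_) (hHS J)
    rw [Finset.mul_sum]
    apply Finset.sum_congr rfl
    intro j _
    rw [Finset.mul_sum]
    apply Finset.sum_congr rfl
    intro i _
    ring
  have hmain := main_fin m D (aD s b m) (fun i _ => aD_pos hs hσ m i)
    (fun j => bD s b m j / (m : ℝ) ^ 2)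
    (fun j => div_nonneg (bD_nonneg hσ m j) (by positivity)) (YD m) (rD s D p m)
    (fun l => (∑' j, bD s b m j * YD m j ^ l) / (m : ℝ) ^ 2)
    (fun l i => Sd s b D p m l i / (m : ℂ) ^ 2) hA' hS' hHS' hκ hτ h1 (UD s d m)
    (fun i => ((m / (KS s * pq (b + 3) (m - 1)) : ℝ) : ℂ)
      * ∑ n ∈ range N, y n * conj (XD s m n i)) (FF s D p (Phi s d m)) J
  rw [Nf_eq hs b D p hm hd J, Pf_eq hs hσ d m]
  refine le_trans ?_ hmain
  have t1 := term1 s N hm d y (KS s * pq (b + 3) (m - 1))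
  have t2 := term2 hs hb hσ N hm y
  have t3 := term3 hs hb D p hm d
  have t4 := term4 hs hb D N p hm d y
  have t5 := term5 hs hb D p hm d
  rw [t1, t3, t4, t5]
  have t2' := mul_le_mul_of_nonneg_left t2 (by positivity : 0 ≤ 1 + (1 + 1 / κ) * HS)
  unfold Ed
  have e : (m : ℝ) ^ 2 / (KS s * pq (b + 3) (m - 1)) * (2 * (∑ n ∈ range N, conj (y n) * ph s d m n).re
    - (1 + (1 + 1 / κ) * HS) * (∑ n ∈ range N, ∑ k ∈ range N, y n * conj (y k) * Gd s b m k n).re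
    - (∑ l ∈ range (D + 1), ∑ k ∈ range (D + 1),
        (FF s D p (ph s d m) l * conj (FF s D p (ph s d m) k)).re * Ad s b m (l + k))
    - 2 * (∑ l ∈ range (D + 1), ∑ n ∈ range N,
        conj (FF s D p (ph s d m) l) * y n * Xd s b D p m l n).re
    - 1 / τ * (∑ l ∈ range (D + 1), ∑ k ∈ range (D + 1),
        conj (FF s D p (ph s d m) l) * FF s D p (ph s d m) k * Cd s b D p m l k).re)
      = (m : ℝ) ^ 2 / (KS s * pq (b + 3) (m - 1)) * (2 * (∑ n ∈ range N, conj (y n) * ph s d m n).re)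
    - (1 + (1 + 1 / κ) * HS) * ((m : ℝ) ^ 2 / (KS s * pq (b + 3) (m - 1)) * (∑ n ∈ range N, ∑ k ∈ range N, y n * conj (y k) * Gd s b m k n).re)
    - (m : ℝ) ^ 2 / (KS s * pq (b + 3) (m - 1)) * (∑ l ∈ range (D + 1), ∑ k ∈ range (D + 1),
        (FF s D p (ph s d m) l * conj (FF s D p (ph s d m) k)).re * Ad s b m (l + k))
    - (m : ℝ) ^ 2 / (KS s * pq (b + 3) (m - 1)) * (2 * (∑ l ∈ range (D + 1), ∑ n ∈ range N,
        conj (FF s D p (ph s d m) l) * y n * Xd s b D p m l n).re)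
    - 1 / τ * ((m : ℝ) ^ 2 / (KS s * pq (b + 3) (m - 1)) * (∑ l ∈ range (D + 1), ∑ k ∈ range (D + 1),
        conj (FF s D p (ph s d m) l) * FF s D p (ph s d m) k * Cd s b D p m l k).re) := by ring
  rw [e]
  linarith

end Pool.Agent.Helper37.PFS
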