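import Mathlib
import Pool.Agent.Helper37.PFS.Fin

/-!
Project HR2 (MP_16b0ee): the finite dimensional inequality, second form: the term of the test
vector is kept.
-/

set_option autoImplicit false

open Filter Topology Finset
open scoped ComplexConjugate

namespace Pool.Agent.Helper37.PFS

theorem main_fin2 (m D : ℕ) (a : ℕ → ℝ) (ha : ∀ i ∈ range m, 0 < a i) (w : ℕ → ℝ)
    (hw : ∀ j, 0 ≤ w j) (Y : ℕ → ℝ) (r : ℕ → ℕ → ℂ) (A : ℕ → ℝ) (S : ℕ → ℕ → ℂ)
    (hA : ∀ l, Tendsto (fun J => ∑ j ∈ range J, w j * Y j ^ l) atTop (𝓝 (A l)))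
    (hS : ∀ l, ∀ i ∈ range m,
      Tendsto (fun J => ∑ j ∈ range J, (w j : ℂ) * (Y j : ℂ) ^ l * r i j) atTop (𝓝 (S l i)))
    {HS κ τ RQ : ℝ} (hHS : ∀ J, ∑ j ∈ range J, ∑ i ∈ range m, w j * a i * ‖r i j‖ ^ 2 ≤ HS)
    (hκ : 0 < κ) (hτ : 0 < τ) (h1 : (1 + κ) * HS + τ ≤ 1) (U q f : ℕ → ℂ)
    (hRQ : ∀ J, ∑ j ∈ range J, w j * ‖∑ i ∈ range m, ((a i : ℂ) * q i) * r i j‖ ^ 2 ≤ RQ)
    (J : ℕ) :
    2 * (∑ i ∈ range m, conj (q i) * U i).re
        - (∑ i ∈ range m, a i * ‖q i‖ ^ 2) - (1 + 1 / κ) * RQ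
        - (∑ l ∈ range (D + 1), ∑ k ∈ range (D + 1), (f l * conj (f k)).re * A (l + k))
        - 2 * (∑ l ∈ range (D + 1), conj (f l) * ∑ i ∈ range m, ((a i : ℂ) * q i) * S l i).re
        - 1 / τ * (∑ i ∈ range m, a i * ‖∑ l ∈ range (D + 1), conj (f l) * S l i‖ ^ 2)
      ≤ (∑ i ∈ range m, ‖U i‖ ^ 2 / a i)
        - ∑ j ∈ range J, w j * ‖(∑ l ∈ range (D + 1), f l * (Y j : ℂ) ^ l)
          + ∑ i ∈ range m, U i * r i j‖ ^ 2 := by
  set u0 : ℕ → ℂ := fun i => (a i : ℂ) * q i with hu0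
  set v : ℕ → ℂ := fun i => U i - u0 i with hv
  set P0 := ∑ i ∈ range m, ‖u0 i‖ ^ 2 / a i with hP0
  set Pv := ∑ i ∈ range m, ‖v i‖ ^ 2 / a i with hPv
  have hPvn : 0 ≤ Pv := Finset.sum_nonneg (fun i hi => by have := ha i hi; positivity)
  -- the value of P0
  have eP0 : P0 = ∑ i ∈ range m, a i * ‖q i‖ ^ 2 := by
    apply Finset.sum_congr rfl
    intro i hi
    have := ha i hi
    rw [hu0]
    simp only
    rw [norm_mul, Complex.norm_real, Real.norm_of_nonneg this.le]
    field_simp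
  -- decomposition of P
  have eP : ∑ i ∈ range m, ‖U i‖ ^ 2 / a i
      = 2 * (∑ i ∈ range m, conj (q i) * U i).re - P0 + Pv := by
    have e : ∀ i ∈ range m, ‖U i‖ ^ 2 / a i
        = 2 * (conj (q i) * U i).re - ‖u0 i‖ ^ 2 / a i + ‖v i‖ ^ 2 / a i := by
      intro i hi
      have hi' := ha i hi
      have e1 : ‖v i‖ ^ 2 = ‖U i‖ ^ 2 - 2 * a i * (conj (q i) * U i).re + ‖u0 i‖ ^ 2 := by
        have e2 : v i = -u0 i + U i := by simp only [hv]; ring
        rw [e2, nsq_add, norm_neg]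
        have e3 : (conj (-u0 i) * U i).re = - (a i * (conj (q i) * U i).re) := by
          have : conj (-u0 i) * U i = ((-a i : ℝ) : ℂ) * (conj (q i) * U i) := by
            simp only [hu0, map_neg, map_mul, Complex.conj_ofReal]
            push_cast
            ring
          rw [this, Complex.re_ofReal_mul]
          ring
        rw [e3]
        ring
      rw [e1]
      field_simp
      ring
    rw [Finset.sum_congr rfl e, Finset.sum_add_distrib, Finset.sum_sub_distrib,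
      ← Finset.mul_sum, ← Complex.re_sum]
  -- the bound for a finite number of terms
  set G : ℕ → ℝ := fun J' =>
    (∑ l ∈ range (D + 1), ∑ k ∈ range (D + 1), (f l * conj (f k)).re
        * ∑ j ∈ range J', w j * Y j ^ (l + k))
      + 2 * (∑ l ∈ range (D + 1), conj (f l) * ∑ i ∈ range m, u0 i
        * ∑ j ∈ range J', (w j : ℂ) * (Y j : ℂ) ^ l * r i j).re
      + 2 * (∑ l ∈ range (D + 1), conj (f l) * ∑ i ∈ range m, v i
        * ∑ j ∈ range J', (w j : ℂ) * (Y j : ℂ) ^ l * r i j).re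
      + ((1 + 1 / κ) * RQ + (1 + κ) * (Pv * HS)) with hG
  have hle : ∀ J' : ℕ, ∑ j ∈ range J', w j * ‖(∑ l ∈ range (D + 1), f l * (Y j : ℂ) ^ l)
      + ∑ i ∈ range m, U i * r i j‖ ^ 2 ≤ G J' := by
    intro J'
    have hpt : ∀ j ∈ range J', w j * ‖(∑ l ∈ range (D + 1), f l * (Y j : ℂ) ^ l)
        + ∑ i ∈ range m, U i * r i j‖ ^ 2
        ≤ w j * ‖∑ l ∈ range (D + 1), f l * (Y j : ℂ) ^ l‖ ^ 2
          + w j * (2 * (conj (∑ l ∈ range (D + 1), f l * (Y j : ℂ) ^ l)
            * ∑ i ∈ range m, u0 i * r i j).re)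
          + w j * (2 * (conj (∑ l ∈ range (D + 1), f l * (Y j : ℂ) ^ l)
            * ∑ i ∈ range m, v i * r i j).re)
          + ((1 + 1 / κ) * (w j * ‖∑ i ∈ range m, u0 i * r i j‖ ^ 2)
            + (1 + κ) * (w j * ‖∑ i ∈ range m, v i * r i j‖ ^ 2)) := by
      intro j _
      have e : ∑ i ∈ range m, U i * r i j
          = ∑ i ∈ range m, u0 i * r i j + ∑ i ∈ range m, v i * r i j := by
        rw [← Finset.sum_add_distrib]
        apply Finset.sum_congr rfl
        intro i _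
        simp only [hv]
        ring
      rw [e]
      have h := mul_le_mul_of_nonneg_left (sq3 (∑ l ∈ range (D + 1), f l * (Y j : ℂ) ^ l)
        (∑ i ∈ range m, u0 i * r i j) (∑ i ∈ range m, v i * r i j) hκ) (hw j)
      linarith
    refine (Finset.sum_le_sum hpt).trans ?_
    rw [Finset.sum_add_distrib, Finset.sum_add_distrib, Finset.sum_add_distrib,
      Finset.sum_add_distrib, ← Finset.mul_sum, ← Finset.mul_sum, quad, cross, cross]
    have c1 := (cs2 (range m) a ha w hw v r J').trans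
      (mul_le_mul_of_nonneg_left (hHS J') hPvn)
    have c0' := mul_le_mul_of_nonneg_left (hRQ J') (by positivity : 0 ≤ 1 + 1 / κ)
    have c1' := mul_le_mul_of_nonneg_left c1 (by positivity : 0 ≤ 1 + κ)
    simp only [hG]
    linarith
  -- the limit
  set Gi : ℝ := (∑ l ∈ range (D + 1), ∑ k ∈ range (D + 1), (f l * conj (f k)).re * A (l + k))
      + 2 * (∑ l ∈ range (D + 1), conj (f l) * ∑ i ∈ range m, u0 i * S l i).re
      + 2 * (∑ l ∈ range (D + 1), conj (f l) * ∑ i ∈ range m, v i * S l i).re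
      + ((1 + 1 / κ) * RQ + (1 + κ) * (Pv * HS)) with hGi
  have hlim : Tendsto G atTop (𝓝 Gi) := by
    have hc : ∀ x : ℕ → ℂ, Tendsto (fun J' : ℕ => 2 * (∑ l ∈ range (D + 1), conj (f l)
        * ∑ i ∈ range m, x i * ∑ j ∈ range J', (w j : ℂ) * (Y j : ℂ) ^ l * r i j).re) atTop
        (𝓝 (2 * (∑ l ∈ range (D + 1), conj (f l) * ∑ i ∈ range m, x i * S l i).re)) := by
      intro x
      apply Tendsto.const_mul
      apply (Complex.continuous_re.tendsto _).comp
      apply tendsto_finsetSum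
      intro l _
      apply Tendsto.const_mul
      apply tendsto_finsetSum
      intro i hi
      exact (hS l i hi).const_mul _
    refine Tendsto.add (Tendsto.add (Tendsto.add ?_ (hc u0)) (hc v)) tendsto_const_nhds
    apply tendsto_finsetSum
    intro l _
    apply tendsto_finsetSum
    intro k _
    exact (hA (l + k)).const_mul _
  have hfin : ∑ j ∈ range J, w j * ‖(∑ l ∈ range (D + 1), f l * (Y j : ℂ) ^ l)
      + ∑ i ∈ range m, U i * r i j‖ ^ 2 ≤ Gi := by
    apply ge_of_tendsto hlim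
    filter_upwards [eventually_ge_atTop J] with J' hJ'
    refine le_trans ?_ (hle J')
    apply Finset.sum_le_sum_of_subset_of_nonneg
    · exact Finset.range_subset_range.2 hJ'
    · intro j _ _
      exact mul_nonneg (hw j) (sq_nonneg _)
  -- the cross term with `v`
  have hcv : 2 * (∑ l ∈ range (D + 1), conj (f l) * ∑ i ∈ range m, v i * S l i).re
      ≤ τ * Pv + 1 / τ * ∑ i ∈ range m, a i * ‖∑ l ∈ range (D + 1), conj (f l) * S l i‖ ^ 2 := by
    have e : ∑ l ∈ range (D + 1), conj (f l) * ∑ i ∈ range m, v i * S l i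
        = ∑ i ∈ range m, v i * ∑ l ∈ range (D + 1), conj (f l) * S l i := by
      have e1 : ∀ l ∈ range (D + 1), conj (f l) * ∑ i ∈ range m, v i * S l i
          = ∑ i ∈ range m, v i * (conj (f l) * S l i) := by
        intro l _
        rw [Finset.mul_sum]
        apply Finset.sum_congr rfl
        intro i _
        ring
      rw [Finset.sum_congr rfl e1, Finset.sum_comm]
      apply Finset.sum_congr rfl
      intro i _
      rw [Finset.mul_sum]
    rw [e, Complex.re_sum, Finset.mul_sum, hPv, Finset.mul_sum, Finset.mul_sum,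
      ← Finset.sum_add_distrib]
    apply Finset.sum_le_sum
    intro i hi
    have hi' := ha i hi
    have h2 := re_mul_le (v i) (∑ l ∈ range (D + 1), conj (f l) * S l i)
    have h3 := two_mul_le (x := ‖v i‖) (y := ‖∑ l ∈ range (D + 1), conj (f l) * S l i‖)
      (div_pos hτ hi')
    have e2 : τ / a i * ‖v i‖ ^ 2 = τ * (‖v i‖ ^ 2 / a i) := by ring
    have e3 : ‖∑ l ∈ range (D + 1), conj (f l) * S l i‖ ^ 2 / (τ / a i)
        = 1 / τ * (a i * ‖∑ l ∈ range (D + 1), conj (f l) * S l i‖ ^ 2) := by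
      field_simp
    rw [e2, e3] at h3
    linarith
  have hfinal : 0 ≤ (1 - ((1 + κ) * HS + τ)) * Pv := mul_nonneg (by linarith) hPvn
  rw [eP]
  rw [← eP0]
  simp only [hGi] at hfin
  have e4 : (1 - ((1 + κ) * HS + τ)) * Pv = Pv - (1 + κ) * (Pv * HS) - τ * Pv := by ring
  rw [e4] at hfinal
  linarith

end Pool.Agent.Helper37.PFS
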