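import Mathlib
import Pool.Agent.Helper37.PFS.Disc
import Pool.Agent.Helper37.PFS.Fin2

/-!
Project HR2 (MP_16b0ee): the inequality for one order, second form.
-/

set_option autoImplicit false

open Filter Topology Finset
open scoped ComplexConjugate

namespace Pool.Agent.Helper37.PFS

open Pool.Agent.Helper24.HR2
open Pool.Agent.Helper22.Half

/-- the remainder tested on the powers, discrete form -/
noncomputable def Rn (s : ℂ) (b : ℝ) (D : ℕ) (p : ℕ → ℕ → ℝ) (m n j : ℕ) : ℂ :=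
  ∑ i ∈ Finset.range m, (aD s b m i : ℂ) * conj (XD s m n i) * rD s D p m i j

/-- the discrete Gram matrix of the remainder -/
noncomputable def Yd (s : ℂ) (b : ℝ) (D : ℕ) (p : ℕ → ℕ → ℝ) (m n k : ℕ) : ℂ :=
  ((1 / ((m : ℝ) ^ 2 * (KS s * pq (b + 3) (m - 1))) : ℝ) : ℂ)
      * ∑' j, (bD s b m j : ℂ) * (Rn s b D p m n j * conj (Rn s b D p m k j))

/-- the discrete form -/
noncomputable def Eg (s : ℂ) (b : ℝ) (D N : ℕ) (p : ℕ → ℕ → ℝ) (κ τ : ℝ) (m : ℕ) (d : ℕ → ℂ)
    (y : ℕ → ℂ) : ℝ :=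
  2 * (∑ n ∈ range N, conj (y n) * ph s d m n).re
    - (∑ n ∈ range N, ∑ k ∈ range N, y n * conj (y k) * Gd s b m k n).re
    - (1 + 1 / κ) * (∑ n ∈ range N, ∑ k ∈ range N, y n * conj (y k) * Yd s b D p m n k).re
    - (∑ l ∈ range (D + 1), ∑ k ∈ range (D + 1),
        (FF s D p (ph s d m) l * conj (FF s D p (ph s d m) k)).re * Ad s b m (l + k))
    - 2 * (∑ l ∈ range (D + 1), ∑ n ∈ range N,
        conj (FF s D p (ph s d m) l) * y n * Xd s b D p m l n).re
    - 1 / τ * (∑ l ∈ range (D + 1), ∑ k ∈ range (D + 1),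
        conj (FF s D p (ph s d m) l) * FF s D p (ph s d m) k * Cd s b D p m l k).re

/-- the term of the test vector -/
theorem term6 {s : ℂ} (hs : ‖s‖ < 1) {b : ℝ} (hb : 0 < b) (hσ : 0 < b + 1 - 2 * s.re)
    (D N : ℕ) (p : ℕ → ℕ → ℝ) {m : ℕ} (hm : 1 ≤ m) (y : ℕ → ℂ)
    (hY : ∀ n k, Summable (fun j => (bD s b m j : ℂ)
      * (Rn s b D p m n j * conj (Rn s b D p m k j)))) (J : ℕ) :
    ∑ j ∈ range J, (bD s b m j / (m : ℝ) ^ 2) * ‖∑ i ∈ range m,
        ((aD s b m i : ℂ) * (((m / (KS s * pq (b + 3) (m - 1)) : ℝ) : ℂ)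
          * ∑ n ∈ range N, y n * conj (XD s m n i))) * rD s D p m i j‖ ^ 2
      ≤ (m : ℝ) ^ 2 / (KS s * pq (b + 3) (m - 1))
        * (∑ n ∈ range N, ∑ k ∈ range N, y n * conj (y k) * Yd s b D p m n k).re := by
  have hKS := KS_facts hs
  have hK0 : 0 < KS s := by linarith [hKS.1]
  have hS0 := pq_pos (z := b + 3) (by linarith) (m - 1)
  have hm0 : (0 : ℝ) < m := by exact_mod_cast hm
  set k0 := KS s * pq (b + 3) (m - 1) with hk0
  have hk0p : 0 < k0 := mul_pos hK0 hS0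
  have hmc : (m : ℂ) ≠ 0 := by exact_mod_cast hm0.ne'
  have hkc : (k0 : ℂ) ≠ 0 := by exact_mod_cast hk0p.ne'
  -- pointwise form
  have e1 : ∀ j, (bD s b m j / (m : ℝ) ^ 2) * ‖∑ i ∈ range m,
        ((aD s b m i : ℂ) * (((m / k0 : ℝ) : ℂ)
          * ∑ n ∈ range N, y n * conj (XD s m n i))) * rD s D p m i j‖ ^ 2
      = (1 / k0 ^ 2) * (bD s b m j * ‖∑ n ∈ range N, y n * Rn s b D p m n j‖ ^ 2) := by
    intro j
    have e2 : ∑ i ∈ range m, ((aD s b m i : ℂ) * (((m / k0 : ℝ) : ℂ)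
          * ∑ n ∈ range N, y n * conj (XD s m n i))) * rD s D p m i j
        = ((m / k0 : ℝ) : ℂ) * ∑ n ∈ range N, y n * Rn s b D p m n j := by
      have e3 : ∀ i ∈ range m, ((aD s b m i : ℂ) * (((m / k0 : ℝ) : ℂ)
          * ∑ n ∈ range N, y n * conj (XD s m n i))) * rD s D p m i j
          = ∑ n ∈ range N, ((m / k0 : ℝ) : ℂ) * (y n
            * ((aD s b m i : ℂ) * conj (XD s m n i) * rD s D p m i j)) := by
        intro i _
        rw [Finset.mul_sum, Finset.mul_sum, Finset.sum_mul]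
        apply Finset.sum_congr rfl
        intro n _
        ring
      rw [Finset.sum_congr rfl e3, Finset.sum_comm, Finset.mul_sum]
      apply Finset.sum_congr rfl
      intro n _
      rw [← Finset.mul_sum, ← Finset.mul_sum]
      rfl
    rw [e2, norm_mul, Complex.norm_real, Real.norm_of_nonneg (by positivity), mul_pow]
    field_simp
  -- the series
  have hs1 : HasSum (fun j => (bD s b m j : ℂ)
      * ∑ n ∈ range N, ∑ k ∈ range N, (y n * Rn s b D p m n j)
        * conj (y k * Rn s b D p m k j))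
      (∑ n ∈ range N, ∑ k ∈ range N, y n * conj (y k)
        * ∑' j, (bD s b m j : ℂ) * (Rn s b D p m n j * conj (Rn s b D p m k j))) := by
    have h : HasSum (fun j => ∑ n ∈ range N, ∑ k ∈ range N, y n * conj (y k)
        * ((bD s b m j : ℂ) * (Rn s b D p m n j * conj (Rn s b D p m k j))))
        (∑ n ∈ range N, ∑ k ∈ range N, y n * conj (y k)
        * ∑' j, (bD s b m j : ℂ) * (Rn s b D p m n j * conj (Rn s b D p m k j))) := by
      apply hasSum_sum
      intro n _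
      apply hasSum_sum
      intro k _
      exact (hY n k).hasSum.mul_left _
    have e : (fun j => (bD s b m j : ℂ)
        * ∑ n ∈ range N, ∑ k ∈ range N, (y n * Rn s b D p m n j)
          * conj (y k * Rn s b D p m k j))
        = (fun j => ∑ n ∈ range N, ∑ k ∈ range N, y n * conj (y k)
        * ((bD s b m j : ℂ) * (Rn s b D p m n j * conj (Rn s b D p m k j)))) := by
      funext j
      rw [Finset.mul_sum]
      apply Finset.sum_congr rfl
      intro n _
      rw [Finset.mul_sum]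
      apply Finset.sum_congr rfl
      intro k _
      rw [map_mul]
      ring
    rw [e]
    exact h
  have hs2 : HasSum (fun j => bD s b m j * ‖∑ n ∈ range N, y n * Rn s b D p m n j‖ ^ 2)
      (∑ n ∈ range N, ∑ k ∈ range N, y n * conj (y k)
        * ∑' j, (bD s b m j : ℂ) * (Rn s b D p m n j * conj (Rn s b D p m k j))).re := by
    have h := Complex.hasSum_re hs1
    have e : (fun j => bD s b m j * ‖∑ n ∈ range N, y n * Rn s b D p m n j‖ ^ 2)
        = fun j => ((bD s b m j : ℂ) * ∑ n ∈ range N, ∑ k ∈ range N, (y n * Rn s b D p m n j)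
          * conj (y k * Rn s b D p m k j)).re := by
      funext j
      rw [← nsq_sum' (range N) (fun n => y n * Rn s b D p m n j), ← Complex.ofReal_mul,
        Complex.ofReal_re]
    rw [e]
    exact h
  have hle : ∑ j ∈ range J, bD s b m j * ‖∑ n ∈ range N, y n * Rn s b D p m n j‖ ^ 2
      ≤ (∑ n ∈ range N, ∑ k ∈ range N, y n * conj (y k)
        * ∑' j, (bD s b m j : ℂ) * (Rn s b D p m n j * conj (Rn s b D p m k j))).re :=
    sum_le_hasSum _ (fun j _ => mul_nonneg (bD_nonneg hσ m j) (sq_nonneg _)) hs2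
  rw [Finset.sum_congr rfl (fun j _ => e1 j), ← Finset.mul_sum]
  refine (mul_le_mul_of_nonneg_left hle (by positivity)).trans (le_of_eq ?_)
  rw [← Complex.re_ofReal_mul, ← Complex.re_ofReal_mul, Finset.mul_sum, Finset.mul_sum]
  congr 1
  apply Finset.sum_congr rfl
  intro n _
  rw [Finset.mul_sum, Finset.mul_sum]
  apply Finset.sum_congr rfl
  intro k _
  unfold Yd
  rw [← hk0]
  push_cast
  field_simp

theorem disc2 {s : ℂ} (hs : ‖s‖ < 1) {b : ℝ} (hb : 0 < b) (hσ : 0 < b + 1 - 2 * s.re) {N D : ℕ}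
    (p : ℕ → ℕ → ℝ) {κ τ HS : ℝ} (hκ : 0 < κ) (hτ : 0 < τ) (h1 : (1 + κ) * HS + τ ≤ 1)
    {m : ℕ} (hm : 1 ≤ m)
    (hHS : ∀ J : ℕ, 1 / (m : ℝ) ^ 2 * ∑ j ∈ Finset.range J, ∑ i ∈ Finset.range m,
      bD s b m j * aD s b m i * ‖rD s D p m i j‖ ^ 2 ≤ HS)
    (hA : ∀ l, Summable (fun j => bD s b m j * YD m j ^ l))
    (hS : ∀ l i, i < m →
      Summable (fun j => (bD s b m j : ℂ) * (YD m j : ℂ) ^ l * rD s D p m i j))
    (hY : ∀ n k, Summable (fun j => (bD s b m j : ℂ)
      * (Rn s b D p m n j * conj (Rn s b D p m k j))))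
    {d : ℕ → ℂ} (hd : ∀ l ≤ m, d l = d (m - l)) (y : ℕ → ℂ) (J : ℕ) :
    (m : ℝ) ^ 2 / (KS s * pq (b + 3) (m - 1)) * Eg s b D N p κ τ m d y
      ≤ Pf s b d m - Nf s b d m J := by
  have hKS := KS_facts hs
  have hK0 : 0 < KS s := by linarith [hKS.1]
  have hS0 := pq_pos (z := b + 3) (by linarith) (m - 1)
  have hm0 : (0 : ℝ) < m := by exact_mod_cast hm
  have hA' : ∀ l, Tendsto (fun J => ∑ j ∈ range J, (bD s b m j / (m : ℝ) ^ 2) * YD m j ^ l) atTop
      (𝓝 ((∑' j, bD s b m j * YD m j ^ l) / (m : ℝ) ^ 2)) := by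
    intro l
    have h := ((hA l).hasSum.tendsto_sum_nat).div_const ((m : ℝ) ^ 2)
    refine h.congr (fun J => ?_)
    rw [Finset.sum_div]
    apply Finset.sum_congr rfl
    intro j _
    ring
  have hS' : ∀ l, ∀ i ∈ range m, Tendsto (fun J => ∑ j ∈ range J,
      ((bD s b m j / (m : ℝ) ^ 2 : ℝ) : ℂ) * (YD m j : ℂ) ^ l * rD s D p m i j) atTop
      (𝓝 (Sd s b D p m l i / (m : ℂ) ^ 2)) := by
    intro l i hi
    have h := ((hS l i (Finset.mem_range.1 hi)).hasSum.tendsto_sum_nat).div_const ((m : ℂ) ^ 2)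
    refine h.congr (fun J => ?_)
    rw [Finset.sum_div]
    apply Finset.sum_congr rfl
    intro j _
    push_cast
    ring
  have hHS' : ∀ J, ∑ j ∈ range J, ∑ i ∈ range m,
      (bD s b m j / (m : ℝ) ^ 2) * aD s b m i * ‖rD s D p m i j‖ ^ 2 ≤ HS := by
    intro J
    refine le_trans (le_of_eq ?_) (hHS J)
    rw [Finset.mul_sum]
    apply Finset.sum_congr rfl
    intro j _
    rw [Finset.mul_sum]
    apply Finset.sum_congr rfl
    intro i _
    ring
  have hmain := main_fin2 m D (aD s b m) (fun i _ => aD_pos hs hσ m i)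
    (fun j => bD s b m j / (m : ℝ) ^ 2)
    (fun j => div_nonneg (bD_nonneg hσ m j) (by positivity)) (YD m) (rD s D p m)
    (fun l => (∑' j, bD s b m j * YD m j ^ l) / (m : ℝ) ^ 2)
    (fun l i => Sd s b D p m l i / (m : ℂ) ^ 2) hA' hS' hHS' hκ hτ h1 (UD s d m)
    (fun i => ((m / (KS s * pq (b + 3) (m - 1)) : ℝ) : ℂ)
      * ∑ n ∈ range N, y n * conj (XD s m n i)) (FF s D p (Phi s d m))
    (term6 hs hb hσ D N p hm y hY) J
  rw [Nf_eq hs b D p hm hd J, Pf_eq hs hσ d m]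
  refine le_trans ?_ hmain
  have t1 := term1 s N hm d y (KS s * pq (b + 3) (m - 1))
  have t2 := term2 hs hb hσ N hm y
  have t3 := term3 hs hb D p hm d
  have t4 := term4 hs hb D N p hm d y
  have t5 := term5 hs hb D p hm d
  rw [t1, t3, t4, t5]
  unfold Eg
  set c := (m : ℝ) ^ 2 / (KS s * pq (b + 3) (m - 1)) with hc
  set x1 := (∑ n ∈ range N, conj (y n) * ph s d m n).re
  set x2 := (∑ n ∈ range N, ∑ k ∈ range N, y n * conj (y k) * Gd s b m k n).re
  set x3 := (∑ n ∈ range N, ∑ k ∈ range N, y n * conj (y k) * Yd s b D p m n k).re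
  set x4 := ∑ l ∈ range (D + 1), ∑ k ∈ range (D + 1),
        (FF s D p (ph s d m) l * conj (FF s D p (ph s d m) k)).re * Ad s b m (l + k)
  set x5 := (∑ l ∈ range (D + 1), ∑ n ∈ range N,
        conj (FF s D p (ph s d m) l) * y n * Xd s b D p m l n).re
  set x6 := (∑ l ∈ range (D + 1), ∑ k ∈ range (D + 1),
        conj (FF s D p (ph s d m) l) * FF s D p (ph s d m) k * Cd s b D p m l k).re
  have e : c * (2 * x1 - x2 - (1 + 1 / κ) * x3 - x4 - 2 * x5 - 1 / τ * x6)
      = c * (2 * x1) - c * x2 - (1 + 1 / κ) * (c * x3) - c * x4 - c * (2 * x5)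
        - 1 / τ * (c * x6) := by ring
  rw [e]
  linarith

end Pool.Agent.Helper37.PFS
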