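import Mathlib
import Pool.Agent.Helper24.HR2.Defs2
import Pool.Agent.Helper24.HR2.LimY
import Pool.Agent.Helper37.PFS.Lim
import Pool.Agent.Helper37.PFS.Disc2

/-!
Project HR2 (MP_16b0ee): the passage to the limit in the discrete form, second form.
-/

set_option autoImplicit false

open Filter Topology Finset MeasureTheory Set
open scoped ComplexConjugate

namespace Pool.Agent.Helper37.PFS

open Pool.Agent.Helper24.HR2
open Pool.Agent.Helper22.Half

/-- the limit of the discrete form, before the last rewriting -/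
noncomputable def Elg (s : ℂ) (b : ℝ) (K N D : ℕ) (p : ℕ → ℕ → ℝ) (κ τ : ℝ)
    (g y : ℕ → ℂ) : ℝ :=
  2 * (∑ n ∈ Finset.range N, conj (y n) * muS s K g n).re
    - (∑ n ∈ Finset.range N, ∑ k ∈ Finset.range N,
        y n * conj (y k) * (Gm s b (k + n) : ℂ)).re
    - (1 + 1 / κ) * (∑ n ∈ Finset.range N, ∑ k ∈ Finset.range N,
        y n * conj (y k) * ((Es s b * MR s b D p n k : ℝ) : ℂ)).re
    - (∑ l ∈ Finset.range (D + 1), ∑ k ∈ Finset.range (D + 1),
        (FF s D p (muS s K g) l * conj (FF s D p (muS s K g) k)).re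
          * (Es s b / ((b + (l + k : ℕ)) * (b + (l + k : ℕ) + 1))))
    - 2 * (∑ l ∈ Finset.range (D + 1), ∑ n ∈ Finset.range N,
        conj (FF s D p (muS s K g) l) * y n * ((Es s b * xln s b D p l n : ℝ) : ℂ)).re
    - 1 / τ * (∑ l ∈ Finset.range (D + 1), ∑ k ∈ Finset.range (D + 1),
        conj (FF s D p (muS s K g) l) * FF s D p (muS s K g) k
          * ((Es s b ^ 2 / B0 s b
            * ∫ x in Ioo (0 : ℝ) 1, alp s b x * rl b D p l x * rl b D p k x : ℝ) : ℂ)).re

section
variable {K : ℕ}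

theorem ap_Eg {s : ℂ} (hs0 : s ≠ 0) (hs : ‖s‖ ≤ 7 / 10) {b : ℝ} (hb : 0 < b) (hb1 : b ≤ 1)
    (hσ : 0 < b + 1 - 2 * s.re) {N D : ℕ} (hN : N + 1 ≤ 2 * K) (hD : D ≤ N)
    (hN1 : 1 ≤ N) (p : ℕ → ℕ → ℝ) (T : ℕ → ℕ → ℂ) (κ τ : ℝ) :
    Ap K 2 (fun m d => Eg s b D N p κ τ m d (Tg K T (vS d m)))
      (fun m d => Elg s b K N D p κ τ (vS d m) (Tg K T (vS d m))) := by
  have hs1 : ‖s‖ < 1 := by linarith
  have aF : ∀ l, Ap K 1 (fun m d => FF s D p (ph s d m) l)
      (fun m d => FF s D p (muS s K (vS d m)) l) := fun l =>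
    ap_FF D p hN1 hD (f := fun n m d => ph s d m n) (f' := fun n m d => muS s K (vS d m) n)
      (fun n hn => ap_ph hs1.le hN hn) l
  have bF : ∀ l, Bd K 1 (fun m d => FF s D p (muS s K (vS d m)) l) := fun l =>
    bd_FF D p (f := fun n m d => muS s K (vS d m) n) (fun n => bd_mu s n) l
  have by' : ∀ n, Bd K 1 (fun m d => Tg K T (vS d m) n) := fun n => bd_Tg T n
  have ay : ∀ n, Ap K 1 (fun m d => Tg K T (vS d m) n) (fun m d => Tg K T (vS d m) n) :=
    fun n => Ap.refl _
  -- the six terms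
  have t1 : Ap K 2 (fun m d => 2 * (∑ n ∈ Finset.range N,
      conj (Tg K T (vS d m) n) * ph s d m n).re)
      (fun m d => 2 * (∑ n ∈ Finset.range N,
      conj (Tg K T (vS d m) n) * muS s K (vS d m) n).re) := by
    apply Ap.cmul
    apply Ap.re
    apply Ap.sum
    intro n hn
    exact (ay n).conj.mul (ap_ph hs1.le hN (Finset.mem_range.1 hn)) (by' n).conj (bd_mu s n)
  have t2 : Ap K 2 (fun m d => (∑ n ∈ Finset.range N,
      ∑ k ∈ Finset.range N, Tg K T (vS d m) n * conj (Tg K T (vS d m) k) * Gd s b m k n).re)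
      (fun m d => (∑ n ∈ Finset.range N,
      ∑ k ∈ Finset.range N, Tg K T (vS d m) n * conj (Tg K T (vS d m) k)
        * (Gm s b (k + n) : ℂ)).re) := by
    apply Ap.re
    apply Ap.sum
    intro n _
    apply Ap.sum
    intro k _
    exact ((ay n).mul (ay k).conj (by' n) (by' k).conj).mul (ap_Gd hs hb hb1 hσ k n)
      ((by' n).mul (by' k).conj) (Bd.const _)
  have t6 : Ap K 2 (fun m d => (1 + 1 / κ) * (∑ n ∈ Finset.range N,
      ∑ k ∈ Finset.range N, Tg K T (vS d m) n * conj (Tg K T (vS d m) k)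
        * Yd s b D p m n k).re)
      (fun m d => (1 + 1 / κ) * (∑ n ∈ Finset.range N,
      ∑ k ∈ Finset.range N, Tg K T (vS d m) n * conj (Tg K T (vS d m) k)
        * ((Es s b * MR s b D p n k : ℝ) : ℂ)).re) := by
    apply Ap.cmul
    apply Ap.re
    apply Ap.sum
    intro n _
    apply Ap.sum
    intro k _
    have hY := ap_of_tendsto (K := K) (lim_y hs0 hs1 hb hσ D p n k).2
    exact ((ay n).mul (ay k).conj (by' n) (by' k).conj).mul hY
      ((by' n).mul (by' k).conj) (Bd.const _)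
  have t3 : Ap K 2 (fun m d => ∑ l ∈ Finset.range (D + 1), ∑ k ∈ Finset.range (D + 1),
        (FF s D p (ph s d m) l * conj (FF s D p (ph s d m) k)).re * Ad s b m (l + k))
      (fun m d => ∑ l ∈ Finset.range (D + 1), ∑ k ∈ Finset.range (D + 1),
        (FF s D p (muS s K (vS d m)) l * conj (FF s D p (muS s K (vS d m)) k)).re
          * (Es s b / ((b + (l + k : ℕ)) * (b + (l + k : ℕ) + 1)))) := by
    apply Ap.sum
    intro l _
    apply Ap.sum
    intro k _
    have hA := ap_of_tendsto (K := K) (lim_bD hs0 hs1 hb hσ (l + k)).2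
    exact (((aF l).mul (aF k).conj (bF l) (bF k).conj).re).mul hA
      ((bF l).mul (bF k).conj).re (Bd.const _)
  have t4 : Ap K 2 (fun m d => 2 * (∑ l ∈ Finset.range (D + 1), ∑ n ∈ Finset.range N,
        conj (FF s D p (ph s d m) l) * Tg K T (vS d m) n * Xd s b D p m l n).re)
      (fun m d => 2 * (∑ l ∈ Finset.range (D + 1), ∑ n ∈ Finset.range N,
        conj (FF s D p (muS s K (vS d m)) l) * Tg K T (vS d m) n
          * ((Es s b * xln s b D p l n : ℝ) : ℂ)).re) := by
    apply Ap.cmul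
    apply Ap.re
    apply Ap.sum
    intro l _
    apply Ap.sum
    intro n _
    have hX := ap_of_tendsto (K := K) (lim_x hs0 hs1 hb hσ D p l n).2
    exact ((aF l).conj.mul (ay n) (bF l).conj (by' n)).mul hX
      ((bF l).conj.mul (by' n)) (Bd.const _)
  have t5 : Ap K 2 (fun m d => 1 / τ * (∑ l ∈ Finset.range (D + 1), ∑ k ∈ Finset.range (D + 1),
        conj (FF s D p (ph s d m) l) * FF s D p (ph s d m) k * Cd s b D p m l k).re)
      (fun m d => 1 / τ * (∑ l ∈ Finset.range (D + 1), ∑ k ∈ Finset.range (D + 1),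
        conj (FF s D p (muS s K (vS d m)) l) * FF s D p (muS s K (vS d m)) k
          * ((Es s b ^ 2 / B0 s b
            * ∫ x in Ioo (0 : ℝ) 1, alp s b x * rl b D p l x * rl b D p k x : ℝ) : ℂ)).re) := by
    apply Ap.cmul
    apply Ap.re
    apply Ap.sum
    intro l _
    apply Ap.sum
    intro k _
    have hC := ap_of_tendsto (K := K) (lim_cross hs0 hs1 hb hσ D p l k)
    exact ((aF l).conj.mul (aF k) (bF l).conj (bF k)).mul hC
      ((bF l).conj.mul (bF k)) (Bd.const _)
  exact ((((t1.sub t2).sub t6).sub t3).sub t4).sub t5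

end

end Pool.Agent.Helper37.PFS
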